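import Pool.Agent.Helper26.Ric.HTENB

/-!
MP_092777_ag, module HTEN: tensors of `FU + FD` in the frame `b₁ = (0, √(L/56))`, `b₂ = (L, T)`.
-/

set_option autoImplicit false

open scoped ContDiff Topology

noncomputable section

namespace RicP

/-! ### Commutation -/

lemma HTEN_it_congr {f g : ℝ × ℝ → ℝ} (h : ∀ x ∈ HTEN_S, f x = g x) (c : ℝ × ℝ) (n : ℕ) :
    ∀ x ∈ HTEN_S, (Dd c)^[n] f x = (Dd c)^[n] g x := by
  induction n with
  | zero => exact h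
  | succ n ih =>
    rw [Function.iterate_succ_apply', Function.iterate_succ_apply']
    exact HTEN_congr ih c

lemma HTEN_comm1 {f : ℝ × ℝ → ℝ} (hf : HTEN_Sm f) (b c : ℝ × ℝ) (n : ℕ) :
    ∀ x ∈ HTEN_S, Dd b ((Dd c)^[n] f) x = (Dd c)^[n] (Dd b f) x := by
  induction n with
  | zero => intro x _; rfl
  | succ n ih =>
    intro x hx
    rw [Function.iterate_succ_apply', Function.iterate_succ_apply',
      HTEN_comm (HTEN_it_Sm hf c n) b c hx]
    exact HTEN_congr ih c x hx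

lemma HTEN_comm2 {f : ℝ × ℝ → ℝ} (hf : HTEN_Sm f) (b c : ℝ × ℝ) (a n : ℕ) :
    ∀ x ∈ HTEN_S, (Dd b)^[a] ((Dd c)^[n] f) x = (Dd c)^[n] ((Dd b)^[a] f) x := by
  induction a with
  | zero => intro x _; rfl
  | succ a ih =>
    intro x hx
    rw [Function.iterate_succ_apply', Function.iterate_succ_apply']
    have h1 := HTEN_congr ih b x hx
    rw [h1]
    exact HTEN_comm1 (HTEN_it_Sm hf b a) b c n x hx

/-! ### Derivatives along the ray -/

lemma HTEN_ray {L T : ℝ} (hL : 0 < L) {g : ℝ × ℝ → ℝ} (hg : HTEN_Sm g) {φ φ' : ℝ → ℝ}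
    (h0 : ∀ r, -1 < r → g ((1 + r) * L, (1 + r) * T) = φ r)
    (h1 : ∀ r, -1 < r → HasDerivAt φ (φ' r) r) :
    ∀ r, -1 < r → Dd (L, T) g ((1 + r) * L, (1 + r) * T) = φ' r := by
  intro r hr
  have hx : (((1 + r) * L, (1 + r) * T) : ℝ × ℝ) ∈ HTEN_S := by
    show 0 < (1 + r) * L
    have : 0 < 1 + r := by linarith
    positivity
  have h2 := HTEN_HD_of hg (L, T) _ hx
  have h3 : HasDerivAt (fun t : ℝ => φ (r + t)) (φ' r) 0 := by
    have h4 : HasDerivAt φ (φ' r) (r + 0) := by simpa using h1 r hr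
    exact h4.comp_const_add r 0
  refine h2.unique (h3.congr_of_eventuallyEq ?_)
  have h5 : ∀ᶠ t : ℝ in 𝓝 0, -1 < r + t := by
    have : Filter.Tendsto (fun t : ℝ => r + t) (𝓝 0) (𝓝 (r + 0)) :=
      tendsto_const_nhds.add Filter.tendsto_id
    rw [add_zero] at this
    exact this.eventually (lt_mem_nhds hr)
  filter_upwards [h5] with t ht
  rw [← h0 (r + t) ht]
  congr 1
  ext <;> simp <;> ring

/-! ### The theta functions -/

/-- `y^j R_n` along the ray -/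
def HTEN_W (k : ℕ) (L T : ℝ) (a j n : ℕ) (r : ℝ) : ℝ :=
  ((1 + r)⁻¹) ^ j * HTEN_G k n a ((1 + r) * L, (1 + r) * T)

lemma HTEN_W_deriv {k : ℕ} (hk : 1 ≤ k) {L T : ℝ} (hL : 0 < L) (a j n : ℕ) {r : ℝ}
    (hr : -1 < r) : HasDerivAt (HTEN_W k L T a j n)
      (-j * HTEN_W k L T a (j + 1) n r
        + 2 * Real.pi ^ 2 / (k * L) * HTEN_W k L T a (j + 2) (n + 2) r) r := by
  have hk0 : (0 : ℝ) < k := by exact_mod_cast hk
  have h1r : 0 < 1 + r := by linarith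
  have hx : (((1 + r) * L, (1 + r) * T) : ℝ × ℝ) ∈ HTEN_S := by
    show 0 < (1 + r) * L
    positivity
  have hb : HasDerivAt (fun r : ℝ => (((1 + r) * L, (1 + r) * T) : ℝ × ℝ)) (L, T) r := by
    have e1 : HasDerivAt (fun r : ℝ => (1 + r) * L) L r := by
      simpa using ((hasDerivAt_id r).const_add 1).mul_const L
    have e2 : HasDerivAt (fun r : ℝ => (1 + r) * T) T r := by
      simpa using ((hasDerivAt_id r).const_add 1).mul_const T
    exact e1.prodMk e2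
  have hG := (HTEN_G_deriv hk n a hx).comp_hasDerivAt r hb
  have hi : HasDerivAt (fun r : ℝ => ((1 + r)⁻¹) ^ j)
      (-j * ((1 + r)⁻¹) ^ (j + 1)) r := by
    have e1 : HasDerivAt (fun r : ℝ => (1 + r)⁻¹) (-(1 + r)⁻¹ ^ 2) r := by
      have e0 := ((hasDerivAt_id r).const_add 1).inv h1r.ne'
      refine e0.congr_deriv ?_
      simp
      field_simp
    have e2 := e1.fun_pow j
    refine e2.congr_deriv ?_
    rcases j with _ | j
    · simp
    · simp only [Nat.add_sub_cancel]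
      ring
  have h := hi.mul hG
  refine h.congr_deriv ?_
  have h1r' := h1r.ne'
  have hL' := hL.ne'
  simp only [add_apply, smul_apply, smul_eq_mul, Function.comp_apply,
    ContinuousLinearMap.coe_fst', ContinuousLinearMap.coe_snd', HTEN_W]
  have f1 : 2 * Real.pi ^ 2 / (k * ((1 + r) * L) ^ 2) * L
      = 2 * Real.pi ^ 2 / (k * L) * (1 + r)⁻¹ ^ 2 := by
    field_simp
  have f2 : 2 * Real.pi * ((1 + r) * T) / ((1 + r) * L) ^ 2 * L
      = 2 * Real.pi / ((1 + r) * L) * T := by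
    field_simp
  generalize HTEN_G k n a ((1 + r) * L, (1 + r) * T) = g0
  generalize HTEN_G k (n + 2) a ((1 + r) * L, (1 + r) * T) = g2
  generalize HTEN_G k (n + 1) (a + 1) ((1 + r) * L, (1 + r) * T) = g1
  generalize (1 + r)⁻¹ = y at f1
  linear_combination (y ^ j * g2) * f1 - (y ^ j * g1) * f2

/-- derivatives in direction `b₁` -/
lemma HTEN_thd_b {k : ℕ} (hk : 1 ≤ k) (σ : ℝ) (a : ℕ) : ∀ x ∈ HTEN_S,
    (Dd (0, σ))^[a] (thd k) x = (2 * Real.pi * σ * (x.1)⁻¹) ^ a * HTEN_G k a a x := by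
  induction a with
  | zero =>
    intro x _
    simp [HTEN_thd]
  | succ a ih =>
    intro x hx
    rw [Function.iterate_succ_apply', HTEN_congr ih (0, σ) x hx]
    have hsm : HTEN_Sm (fun x => (2 * Real.pi * σ * (x.1)⁻¹) ^ a * HTEN_G k a a x) :=
      HTEN_Sm_congr (HTEN_it_Sm (HTEN_thd_Sm hk) (0, σ) a) (fun y hy => (ih y hy).symm)
    have hd1 : HTEN_HD (0, σ) (fun x => (2 * Real.pi * σ * (x.1)⁻¹) ^ a) (fun _ => 0) := by
      intro y _
      have e : (fun t : ℝ => (2 * Real.pi * σ * ((y + t • ((0, σ) : ℝ × ℝ)).1)⁻¹) ^ a)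
          = fun _ => (2 * Real.pi * σ * (y.1)⁻¹) ^ a := by
        funext t
        simp
      simp only [e]
      exact hasDerivAt_const _ _
    have hd2 := HTEN_HD_mul hd1 (HTEN_HD_of (HTEN_G_Sm hk a a) (0, σ))
    rw [HTEN_HD_eq hsm hd2 x hx, HTEN_G_Dd hk a a (0, σ) hx]
    simp only
    ring

lemma HTEN_thd_iter {k : ℕ} (hk : 1 ≤ k) {L T : ℝ} (hL : 0 < L) (σ : ℝ) (a : ℕ) :
    ((Dd (0, σ))^[a] (thd k)) (L, T) = (2 * Real.pi * σ / L) ^ a * HTEN_G k a a (L, T) ∧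
    ((Dd (0, σ))^[a] ((Dd (L, T))^[1] (thd k))) (L, T) = (2 * Real.pi * σ / L) ^ a *
      (2 * Real.pi ^ 2 / (k * L) * HTEN_G k (a + 2) a (L, T) - a * HTEN_G k a a (L, T)) ∧
    ((Dd (0, σ))^[a] ((Dd (L, T))^[2] (thd k))) (L, T) = (2 * Real.pi * σ / L) ^ a *
      ((2 * Real.pi ^ 2 / (k * L)) ^ 2 * HTEN_G k (a + 4) a (L, T)
        - 2 * (a + 1) * (2 * Real.pi ^ 2 / (k * L)) * HTEN_G k (a + 2) a (L, T)
        + a * (a + 1) * HTEN_G k a a (L, T)) ∧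
    ((Dd (0, σ))^[a] ((Dd (L, T))^[3] (thd k))) (L, T) = (2 * Real.pi * σ / L) ^ a *
      ((2 * Real.pi ^ 2 / (k * L)) ^ 3 * HTEN_G k (a + 6) a (L, T)
        - 3 * (a + 2) * (2 * Real.pi ^ 2 / (k * L)) ^ 2 * HTEN_G k (a + 4) a (L, T)
        + 3 * (a + 1) * (a + 2) * (2 * Real.pi ^ 2 / (k * L)) * HTEN_G k (a + 2) a (L, T)
        - a * (a + 1) * (a + 2) * HTEN_G k a a (L, T)) ∧
    ((Dd (0, σ))^[a] ((Dd (L, T))^[4] (thd k))) (L, T) = (2 * Real.pi * σ / L) ^ a *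
      ((2 * Real.pi ^ 2 / (k * L)) ^ 4 * HTEN_G k (a + 8) a (L, T)
        - 4 * (a + 3) * (2 * Real.pi ^ 2 / (k * L)) ^ 3 * HTEN_G k (a + 6) a (L, T)
        + 6 * (a + 2) * (a + 3) * (2 * Real.pi ^ 2 / (k * L)) ^ 2 * HTEN_G k (a + 4) a (L, T)
        - 4 * (a + 1) * (a + 2) * (a + 3) * (2 * Real.pi ^ 2 / (k * L)) *
          HTEN_G k (a + 2) a (L, T)
        + a * (a + 1) * (a + 2) * (a + 3) * HTEN_G k a a (L, T)) := by
  have hp : ((L, T) : ℝ × ℝ) ∈ HTEN_S := hL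
  have hth := HTEN_thd_Sm hk
  rw [HTEN_comm2 hth (0, σ) (L, T) a 1 _ hp, HTEN_comm2 hth (0, σ) (L, T) a 2 _ hp,
    HTEN_comm2 hth (0, σ) (L, T) a 3 _ hp, HTEN_comm2 hth (0, σ) (L, T) a 4 _ hp]
  set g : ℝ × ℝ → ℝ := (Dd (0, σ))^[a] (thd k) with hg
  have hgs : HTEN_Sm g := HTEN_it_Sm hth (0, σ) a
  set q : ℝ := 2 * Real.pi ^ 2 / (k * L) with hq
  set K : ℝ := (2 * Real.pi * σ / L) ^ a with hK
  have hW := fun (j n : ℕ) (r : ℝ) (hr : -1 < r) =>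
    HTEN_W_deriv (T := T) hk hL a j n hr
  rw [← hq] at hW
  have e0 : ∀ r, -1 < r → g ((1 + r) * L, (1 + r) * T) = K * HTEN_W k L T a a a r := by
    intro r hr
    have h1r : 0 < 1 + r := by linarith
    have hx : (((1 + r) * L, (1 + r) * T) : ℝ × ℝ) ∈ HTEN_S := by
      show 0 < (1 + r) * L
      positivity
    rw [hg, HTEN_thd_b hk σ a _ hx, HTEN_W, hK, ← mul_assoc, ← mul_pow]
    congr 2
    simp only
    field_simp
  have d1 : ∀ r, -1 < r → (Dd (L, T))^[1] g ((1 + r) * L, (1 + r) * T)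
      = K * (q * HTEN_W k L T a (a + 2) (a + 2) r - a * HTEN_W k L T a (a + 1) a r) := by
    refine HTEN_ray hL hgs e0 (fun r hr => ((hW a a r hr).const_mul K).congr_deriv ?_)
    ring
  have d2 : ∀ r, -1 < r → (Dd (L, T))^[2] g ((1 + r) * L, (1 + r) * T)
      = K * (q ^ 2 * HTEN_W k L T a (a + 4) (a + 4) r
        - 2 * (a + 1) * q * HTEN_W k L T a (a + 3) (a + 2) r
        + a * (a + 1) * HTEN_W k L T a (a + 2) a r) := by
    rw [Function.iterate_succ']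
    refine HTEN_ray hL (HTEN_it_Sm hgs (L, T) 1) d1 (fun r hr =>
      ((((hW (a + 2) (a + 2) r hr).const_mul q).fun_sub
        ((hW (a + 1) a r hr).const_mul (a : ℝ))).const_mul K).congr_deriv ?_)
    push_cast
    ring
  have d3 : ∀ r, -1 < r → (Dd (L, T))^[3] g ((1 + r) * L, (1 + r) * T)
      = K * (q ^ 3 * HTEN_W k L T a (a + 6) (a + 6) r
        - 3 * (a + 2) * q ^ 2 * HTEN_W k L T a (a + 5) (a + 4) r
        + 3 * (a + 1) * (a + 2) * q * HTEN_W k L T a (a + 4) (a + 2) r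
        - a * (a + 1) * (a + 2) * HTEN_W k L T a (a + 3) a r) := by
    rw [Function.iterate_succ']
    refine HTEN_ray hL (HTEN_it_Sm hgs (L, T) 2) d2 (fun r hr =>
      (((((hW (a + 4) (a + 4) r hr).const_mul (q ^ 2)).fun_sub
        ((hW (a + 3) (a + 2) r hr).const_mul (2 * (a + 1) * q))).fun_add
        ((hW (a + 2) a r hr).const_mul (a * (a + 1) : ℝ))).const_mul K).congr_deriv ?_)
    push_cast
    ring
  have d4 : ∀ r, -1 < r → (Dd (L, T))^[4] g ((1 + r) * L, (1 + r) * T)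
      = K * (q ^ 4 * HTEN_W k L T a (a + 8) (a + 8) r
        - 4 * (a + 3) * q ^ 3 * HTEN_W k L T a (a + 7) (a + 6) r
        + 6 * (a + 2) * (a + 3) * q ^ 2 * HTEN_W k L T a (a + 6) (a + 4) r
        - 4 * (a + 1) * (a + 2) * (a + 3) * q * HTEN_W k L T a (a + 5) (a + 2) r
        + a * (a + 1) * (a + 2) * (a + 3) * HTEN_W k L T a (a + 4) a r) := by
    rw [Function.iterate_succ']
    refine HTEN_ray hL (HTEN_it_Sm hgs (L, T) 3) d3 (fun r hr =>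
      ((((((hW (a + 6) (a + 6) r hr).const_mul (q ^ 3)).fun_sub
        ((hW (a + 5) (a + 4) r hr).const_mul (3 * (a + 2) * q ^ 2))).fun_add
        ((hW (a + 4) (a + 2) r hr).const_mul (3 * (a + 1) * (a + 2) * q))).fun_sub
        ((hW (a + 3) a r hr).const_mul (a * (a + 1) * (a + 2) : ℝ))).const_mul K).congr_deriv ?_)
    push_cast
    ring
  have z : (-1 : ℝ) < 0 := by norm_num
  have f0 := e0 0 z
  have f1 := d1 0 z
  have f2 := d2 0 z
  have f3 := d3 0 z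
  have f4 := d4 0 z
  simp only [HTEN_W, add_zero, inv_one, one_pow, one_mul] at f0 f1 f2 f3 f4
  exact ⟨f0, f1, f2, f3, f4⟩

/-- `thH` in terms of the theta functions -/
lemma HTEN_thH {k : ℕ} (hk : 1 ≤ k) {L : ℝ} (T : ℝ) (hL : 0 < L) (a : ℕ) :
    thH k a 0 L (2 * Real.pi * (T / L - 1 / 2)) = HTEN_G k a a (L, T) ∧
    thH k a 1 L (2 * Real.pi * (T / L - 1 / 2)) =
      2 * Real.pi ^ 2 / (k * L) * HTEN_G k (a + 2) a (L, T) - a * HTEN_G k a a (L, T) ∧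
    thH k a 2 L (2 * Real.pi * (T / L - 1 / 2)) =
      (2 * Real.pi ^ 2 / (k * L)) ^ 2 * HTEN_G k (a + 4) a (L, T)
        - 2 * (a + 1) * (2 * Real.pi ^ 2 / (k * L)) * HTEN_G k (a + 2) a (L, T)
        + a * (a + 1) * HTEN_G k a a (L, T) ∧
    thH k a 3 L (2 * Real.pi * (T / L - 1 / 2)) =
      (2 * Real.pi ^ 2 / (k * L)) ^ 3 * HTEN_G k (a + 6) a (L, T)
        - 3 * (a + 2) * (2 * Real.pi ^ 2 / (k * L)) ^ 2 * HTEN_G k (a + 4) a (L, T)
        + 3 * (a + 1) * (a + 2) * (2 * Real.pi ^ 2 / (k * L)) * HTEN_G k (a + 2) a (L, T)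
        - a * (a + 1) * (a + 2) * HTEN_G k a a (L, T) ∧
    thH k a 4 L (2 * Real.pi * (T / L - 1 / 2)) =
      (2 * Real.pi ^ 2 / (k * L)) ^ 4 * HTEN_G k (a + 8) a (L, T)
        - 4 * (a + 3) * (2 * Real.pi ^ 2 / (k * L)) ^ 3 * HTEN_G k (a + 6) a (L, T)
        + 6 * (a + 2) * (a + 3) * (2 * Real.pi ^ 2 / (k * L)) ^ 2 * HTEN_G k (a + 4) a (L, T)
        - 4 * (a + 1) * (a + 2) * (a + 3) * (2 * Real.pi ^ 2 / (k * L)) *
          HTEN_G k (a + 2) a (L, T)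
        + a * (a + 1) * (a + 2) * (a + 3) * HTEN_G k a a (L, T) := by
  have hs : ∀ n, HasSum (fun m => HTEN_tm k n a m (L, T)) (HTEN_G k n a (L, T)) := fun n =>
    (HTEN_tm_summable (p := (L, T)) hk n a hL).hasSum
  set q : ℝ := 2 * Real.pi ^ 2 / (k * L) with hq
  have hterm : ∀ (b : ℕ) (m : ℤ), (m : ℝ) ^ a *
      Real.cos (m * (2 * Real.pi * (T / L - 1 / 2)) + a * (Real.pi / 2)) *
      PL a b (2 * Real.pi ^ 2 * (m : ℝ) ^ 2 / (k * L)) *
      Real.exp (-(2 * Real.pi ^ 2 * (m : ℝ) ^ 2 / (k * L)))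
      = HTEN_tm k a a m (L, T) * PL a b (q * (m : ℝ) ^ 2) := by
    intro b m
    have e1 : 2 * Real.pi ^ 2 * (m : ℝ) ^ 2 / (k * L) = q * (m : ℝ) ^ 2 := by
      rw [hq]
      ring
    have e2 : (m : ℝ) * (2 * Real.pi * (T / L - 1 / 2)) = 2 * Real.pi * m * (T / L - 1 / 2) := by
      ring
    unfold HTEN_tm
    rw [neg_div, e1, e2]
    ring
  have hshift : ∀ (i : ℕ) (m : ℤ), HTEN_tm k (a + i) a m (L, T)
      = (m : ℝ) ^ i * HTEN_tm k a a m (L, T) := by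
    intro i m
    unfold HTEN_tm
    rw [pow_add]
    ring
  unfold thH
  simp only [hterm]
  refine ⟨?_, ?_, ?_, ?_, ?_⟩
  · rw [← (hs a).tsum_eq]
    refine tsum_congr fun m => ?_
    simp [PL]
  · have h := ((hs (a + 2)).mul_left q).sub ((hs a).mul_left (a : ℝ))
    rw [← h.tsum_eq]
    refine tsum_congr fun m => ?_
    simp only [hshift, PL]
    ring
  · have h := (((hs (a + 4)).mul_left (q ^ 2)).sub ((hs (a + 2)).mul_left (2 * (a + 1) * q))).add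
      ((hs a).mul_left (a * (a + 1) : ℝ))
    rw [← h.tsum_eq]
    refine tsum_congr fun m => ?_
    simp only [hshift, PL]
    ring
  · have h := ((((hs (a + 6)).mul_left (q ^ 3)).sub
      ((hs (a + 4)).mul_left (3 * (a + 2) * q ^ 2))).add
      ((hs (a + 2)).mul_left (3 * (a + 1) * (a + 2) * q))).sub
      ((hs a).mul_left (a * (a + 1) * (a + 2) : ℝ))
    rw [← h.tsum_eq]
    refine tsum_congr fun m => ?_
    simp only [hshift, PL]
    ring
  · have h := (((((hs (a + 8)).mul_left (q ^ 4)).sub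
      ((hs (a + 6)).mul_left (4 * (a + 3) * q ^ 3))).add
      ((hs (a + 4)).mul_left (6 * (a + 2) * (a + 3) * q ^ 2))).sub
      ((hs (a + 2)).mul_left (4 * (a + 1) * (a + 2) * (a + 3) * q))).add
      ((hs a).mul_left (a * (a + 1) * (a + 2) * (a + 3) : ℝ))
    rw [← h.tsum_eq]
    refine tsum_congr fun m => ?_
    simp only [hshift, PL]
    ring

/-- the derivatives of `thd k` in the frame -/
theorem HTEN_uH {k : ℕ} (hk : 1 ≤ k) {L : ℝ} (T : ℝ) (hL : 0 < L) (a b : ℕ) (hb : b ≤ 4) :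
    ((Dd (0, Real.sqrt (L / 56)))^[a] ((Dd (L, T))^[b] (thd k))) (L, T)
      = uH k L (2 * Real.pi * (T / L - 1 / 2)) a b := by
  have hC : 2 * Real.pi * Real.sqrt (L / 56) / L = Real.sqrt (Real.pi ^ 2 / (14 * L)) := by
    symm
    rw [Real.sqrt_eq_iff_mul_self_eq (by positivity) (by positivity)]
    have h1 : Real.sqrt (L / 56) * Real.sqrt (L / 56) = L / 56 :=
      Real.mul_self_sqrt (by positivity)
    have h2 : 2 * Real.pi * Real.sqrt (L / 56) / L * (2 * Real.pi * Real.sqrt (L / 56) / L)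
        = 4 * Real.pi ^ 2 * (Real.sqrt (L / 56) * Real.sqrt (L / 56)) / L ^ 2 := by
      ring
    rw [h2, h1]
    field_simp
    ring
  obtain ⟨i0, i1, i2, i3, i4⟩ := HTEN_thd_iter (T := T) hk hL (Real.sqrt (L / 56)) a
  obtain ⟨t0, t1, t2, t3, t4⟩ := HTEN_thH hk T hL a
  rw [hC] at i0 i1 i2 i3 i4
  rw [← t0] at i0
  rw [← t1] at i1
  rw [← t2] at i2
  rw [← t3] at i3
  rw [← t4] at i4
  interval_cases b
  · exact i0
  · exact i1
  · exact i2
  · exact i3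
  · exact i4

/-! ### The elementary part -/

/-- the elementary part of the potential -/
def HTEN_s (p : ℝ × ℝ) : ℝ := FU p - 5 * shb 1 p - 7 * shb 4 p

lemma HTEN_split (p : ℝ × ℝ) : FU p + FD p = (((HTEN_s p + 4 * Real.log (thd 1 p))
    + 10 * Real.log (thd 2 p)) + 8 * Real.log (thd 4 p)) := by
  unfold HTEN_s FD
  ring

lemma HTEN_shb_Sm {j : ℕ} (hj : 1 ≤ j) : HTEN_Sm (shb j) := by
  have hj0 : (0 : ℝ) < j := by exact_mod_cast hj
  have h1 : ContDiffOn ℝ ∞ (fun p : ℝ × ℝ => (j : ℝ) * p.1 / 2) HTEN_S :=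
    ((contDiff_const.mul contDiff_fst).div_const 2).contDiffOn
  have h2 : ContDiffOn ℝ ∞ (fun p : ℝ × ℝ => Real.sinh ((j : ℝ) * p.1 / 2)) HTEN_S :=
    Real.contDiff_sinh.comp_contDiffOn h1
  have pos : ∀ p ∈ HTEN_S, 0 < (j : ℝ) * p.1 / 2 := fun p hp => by
    have : 0 < p.1 := hp
    positivity
  refine ContDiffOn.log (h2.div h1 fun p hp => (pos p hp).ne') fun p hp => ?_
  exact (div_pos (Real.sinh_pos_iff.2 (pos p hp)) (pos p hp)).ne'

lemma HTEN_FU_Sm : HTEN_Sm FU := by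
  have h1 : ContDiffOn ℝ ∞ (fun p : ℝ × ℝ => p.1) HTEN_S := contDiff_fst.contDiffOn
  have h2 : ContDiffOn ℝ ∞ (fun p : ℝ × ℝ => p.2) HTEN_S := contDiff_snd.contDiffOn
  have z : ∀ p ∈ HTEN_S, p.1 ≠ 0 := fun p hp => (show 0 < p.1 from hp).ne'
  exact ((contDiffOn_const.mul (h2.pow 2)).div h1 z).sub (contDiffOn_const.mul (h1.log z))

lemma HTEN_s_Sm : HTEN_Sm HTEN_s :=
  (HTEN_FU_Sm.sub (contDiffOn_const.mul (HTEN_shb_Sm le_rfl))).sub
    (contDiffOn_const.mul (HTEN_shb_Sm (by norm_num)))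

/-- derivatives of `log (sinh z / z)`, `z = α(1+r)` -/
lemma HTEN_q {α : ℝ} (hα : 0 < α) {r : ℝ} (hr : -1 < r) :
    HasDerivAt (fun r => Real.log (Real.sinh ((1 + r) * α) / ((1 + r) * α)))
      (α * Real.cosh ((1 + r) * α) / Real.sinh ((1 + r) * α) - (1 + r)⁻¹) r ∧
    HasDerivAt (fun r => α * Real.cosh ((1 + r) * α) / Real.sinh ((1 + r) * α) - (1 + r)⁻¹)
      (-(α ^ 2 / Real.sinh ((1 + r) * α) ^ 2) + (1 + r)⁻¹ ^ 2) r ∧
    HasDerivAt (fun r => -(α ^ 2 / Real.sinh ((1 + r) * α) ^ 2) + (1 + r)⁻¹ ^ 2)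
      (2 * α ^ 3 * Real.cosh ((1 + r) * α) / Real.sinh ((1 + r) * α) ^ 3
        - 2 * (1 + r)⁻¹ ^ 3) r ∧
    HasDerivAt (fun r => 2 * α ^ 3 * Real.cosh ((1 + r) * α) / Real.sinh ((1 + r) * α) ^ 3
        - 2 * (1 + r)⁻¹ ^ 3)
      (2 * α ^ 4 * (Real.sinh ((1 + r) * α) ^ 2 - 3 * Real.cosh ((1 + r) * α) ^ 2)
        / Real.sinh ((1 + r) * α) ^ 4 + 6 * (1 + r)⁻¹ ^ 4) r := by
  have h1r : 0 < 1 + r := by linarith
  have h1r' := h1r.ne'
  have hz : 0 < (1 + r) * α := by positivity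
  have hs : 0 < Real.sinh ((1 + r) * α) := Real.sinh_pos_iff.2 hz
  have hs' := hs.ne'
  have hα' := hα.ne'
  have d0 : HasDerivAt (fun r : ℝ => (1 + r) * α) α r := by
    simpa using ((hasDerivAt_id r).const_add 1).mul_const α
  have ds := d0.sinh
  have dc := d0.cosh
  have hcs : Real.cosh ((1 + r) * α) ^ 2 = Real.sinh ((1 + r) * α) ^ 2 + 1 := Real.cosh_sq _
  have di : HasDerivAt (fun r : ℝ => (1 + r)⁻¹) (-(1 + r)⁻¹ ^ 2) r := by
    have e0 := ((hasDerivAt_id r).const_add 1).inv h1r.ne'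
    refine e0.congr_deriv ?_
    simp
    field_simp
  have hS : ∀ n : ℕ, Real.sinh ((1 + r) * α) ^ n ≠ 0 := fun n => pow_ne_zero n hs'
  refine ⟨?_, ?_, ?_, ?_⟩
  · refine ((ds.div d0 hz.ne').log (div_pos hs hz).ne').congr_deriv ?_
    simp only [Pi.div_apply]
    field_simp
  · refine (((dc.const_mul α).div ds hs').sub di).congr_deriv ?_
    generalize Real.sinh ((1 + r) * α) = S at *
    generalize Real.cosh ((1 + r) * α) = C at *
    generalize (1 + r)⁻¹ = y at *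
    have hC : C ^ 2 = S ^ 2 + 1 := hcs
    field_simp
    linear_combination (-α ^ 2) * hC
  · have h := (((hasDerivAt_const r (α ^ 2)).div (ds.fun_pow 2) (hS 2)).neg).add (di.fun_pow 2)
    refine h.congr_deriv ?_
    generalize Real.sinh ((1 + r) * α) = S at *
    generalize Real.cosh ((1 + r) * α) = C at *
    generalize (1 + r)⁻¹ = y at *
    push_cast
    field_simp
    ring
  · have h := ((dc.const_mul (2 * α ^ 3)).div (ds.fun_pow 3) (hS 3)).sub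
      ((di.fun_pow 3).const_mul 2)
    refine h.congr_deriv ?_
    generalize Real.sinh ((1 + r) * α) = S at *
    generalize Real.cosh ((1 + r) * α) = C at *
    generalize (1 + r)⁻¹ = y at *
    push_cast
    field_simp
    ring

lemma HTEN_rays {L T : ℝ} (hL : 0 < L) {g : ℝ × ℝ → ℝ} (hg : HTEN_Sm g) (φ : ℕ → ℝ → ℝ) (N : ℕ)
    (h0 : ∀ r, -1 < r → g ((1 + r) * L, (1 + r) * T) = φ 0 r)
    (h1 : ∀ n < N, ∀ r, -1 < r → HasDerivAt (φ n) (φ (n + 1) r) r) (n : ℕ) (hn : n ≤ N) :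
    ∀ r, -1 < r → (Dd (L, T))^[n] g ((1 + r) * L, (1 + r) * T) = φ n r := by
  induction n with
  | zero => exact h0
  | succ n ih =>
    rw [Function.iterate_succ_apply']
    exact HTEN_ray hL (HTEN_it_Sm hg (L, T) n) (ih (by omega)) (h1 n (by omega))

lemma HTEN_tenOf2 (ψ : ℝ × ℝ → ℝ) (p b c : ℝ × ℝ) : tenOf ψ p b c =
    ![(Dd b)^[2] ((Dd c)^[0] ψ) p, (Dd b)^[1] ((Dd c)^[1] ψ) p, (Dd b)^[0] ((Dd c)^[2] ψ) p,
      (Dd b)^[3] ((Dd c)^[0] ψ) p, (Dd b)^[2] ((Dd c)^[1] ψ) p, (Dd b)^[2] ((Dd c)^[1] ψ) p,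
      (Dd b)^[1] ((Dd c)^[2] ψ) p, (Dd b)^[1] ((Dd c)^[2] ψ) p, (Dd b)^[0] ((Dd c)^[3] ψ) p,
      (Dd b)^[4] ((Dd c)^[0] ψ) p, (Dd b)^[3] ((Dd c)^[1] ψ) p,
      (Dd b)^[2] ((Dd c)^[2] ψ) p, (Dd b)^[2] ((Dd c)^[2] ψ) p,
      (Dd b)^[1] ((Dd c)^[3] ψ) p, (Dd b)^[0] ((Dd c)^[4] ψ) p] := rfl

/-- derivatives of the elementary part along the ray -/
def HTEN_phi (L T : ℝ) (n : ℕ) (r : ℝ) : ℝ :=
  match n with
  | 0 => (1 + r) * (28 * T ^ 2 / L) - 23 * Real.log ((1 + r) * L)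
      - 5 * Real.log (Real.sinh ((1 + r) * (L / 2)) / ((1 + r) * (L / 2)))
      - 7 * Real.log (Real.sinh ((1 + r) * (2 * L)) / ((1 + r) * (2 * L)))
  | 1 => 28 * T ^ 2 / L - 23 * (1 + r)⁻¹
      - 5 * (L / 2 * Real.cosh ((1 + r) * (L / 2)) / Real.sinh ((1 + r) * (L / 2)) - (1 + r)⁻¹)
      - 7 * (2 * L * Real.cosh ((1 + r) * (2 * L)) / Real.sinh ((1 + r) * (2 * L)) - (1 + r)⁻¹)
  | 2 => 23 * (1 + r)⁻¹ ^ 2
      - 5 * (-((L / 2) ^ 2 / Real.sinh ((1 + r) * (L / 2)) ^ 2) + (1 + r)⁻¹ ^ 2)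
      - 7 * (-((2 * L) ^ 2 / Real.sinh ((1 + r) * (2 * L)) ^ 2) + (1 + r)⁻¹ ^ 2)
  | 3 => -46 * (1 + r)⁻¹ ^ 3
      - 5 * (2 * (L / 2) ^ 3 * Real.cosh ((1 + r) * (L / 2)) / Real.sinh ((1 + r) * (L / 2)) ^ 3
        - 2 * (1 + r)⁻¹ ^ 3)
      - 7 * (2 * (2 * L) ^ 3 * Real.cosh ((1 + r) * (2 * L)) / Real.sinh ((1 + r) * (2 * L)) ^ 3
        - 2 * (1 + r)⁻¹ ^ 3)
  | _ => 138 * (1 + r)⁻¹ ^ 4
      - 5 * (2 * (L / 2) ^ 4 * (Real.sinh ((1 + r) * (L / 2)) ^ 2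
        - 3 * Real.cosh ((1 + r) * (L / 2)) ^ 2) / Real.sinh ((1 + r) * (L / 2)) ^ 4
        + 6 * (1 + r)⁻¹ ^ 4)
      - 7 * (2 * (2 * L) ^ 4 * (Real.sinh ((1 + r) * (2 * L)) ^ 2
        - 3 * Real.cosh ((1 + r) * (2 * L)) ^ 2) / Real.sinh ((1 + r) * (2 * L)) ^ 4
        + 6 * (1 + r)⁻¹ ^ 4)

lemma HTEN_inv_pow {r : ℝ} (hr : -1 < r) (n : ℕ) :
    HasDerivAt (fun r : ℝ => (1 + r)⁻¹ ^ n) (-n * (1 + r)⁻¹ ^ (n + 1)) r := by
  have h1r : 0 < 1 + r := by linarith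
  have e1 : HasDerivAt (fun r : ℝ => (1 + r)⁻¹) (-(1 + r)⁻¹ ^ 2) r := by
    have e0 := ((hasDerivAt_id r).const_add 1).inv h1r.ne'
    refine e0.congr_deriv ?_
    simp
    field_simp
  have e2 := e1.fun_pow n
  refine e2.congr_deriv ?_
  rcases n with _ | n
  · simp
  · simp only [Nat.add_sub_cancel]
    ring

lemma HTEN_phi_deriv {L : ℝ} (T : ℝ) (hL : 0 < L) : ∀ n < 4, ∀ r, -1 < r →
    HasDerivAt (HTEN_phi L T n) (HTEN_phi L T (n + 1) r) r := by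
  intro n hn r hr
  have h1r : 0 < 1 + r := by linarith
  obtain ⟨a0, a1, a2, a3⟩ := HTEN_q (α := L / 2) (by positivity) hr
  obtain ⟨b0, b1, b2, b3⟩ := HTEN_q (α := 2 * L) (by positivity) hr
  interval_cases n
  · have d0 : HasDerivAt (fun r : ℝ => (1 + r) * (28 * T ^ 2 / L)) (28 * T ^ 2 / L) r := by
      simpa using ((hasDerivAt_id r).const_add 1).mul_const (28 * T ^ 2 / L)
    have d1 : HasDerivAt (fun r : ℝ => (1 + r) * L) L r := by
      simpa using ((hasDerivAt_id r).const_add 1).mul_const L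
    have d2 : HasDerivAt (fun r : ℝ => Real.log ((1 + r) * L)) ((1 + r)⁻¹) r := by
      refine (d1.log (by positivity)).congr_deriv ?_
      field_simp
    exact ((d0.fun_sub (d2.const_mul 23)).fun_sub (a0.const_mul 5)).fun_sub (b0.const_mul 7)
  · have d0 : HasDerivAt (fun _ : ℝ => 28 * T ^ 2 / L) 0 r := hasDerivAt_const _ _
    have d1 : HasDerivAt (fun r : ℝ => (1 + r)⁻¹) (-(1 + r)⁻¹ ^ 2) r := by
      simpa using HTEN_inv_pow hr 1
    refine (((d0.fun_sub (d1.const_mul 23)).fun_sub (a1.const_mul 5)).fun_sub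
      (b1.const_mul 7)).congr_deriv ?_
    show _ = 23 * (1 + r)⁻¹ ^ 2
      - 5 * (-((L / 2) ^ 2 / Real.sinh ((1 + r) * (L / 2)) ^ 2) + (1 + r)⁻¹ ^ 2)
      - 7 * (-((2 * L) ^ 2 / Real.sinh ((1 + r) * (2 * L)) ^ 2) + (1 + r)⁻¹ ^ 2)
    ring
  · refine (((HTEN_inv_pow hr 2).const_mul 23).fun_sub (a2.const_mul 5) |>.fun_sub
      (b2.const_mul 7)).congr_deriv ?_
    simp only [HTEN_phi]
    push_cast
    ring
  · refine (((HTEN_inv_pow hr 3).const_mul (-46)).fun_sub (a3.const_mul 5) |>.fun_sub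
      (b3.const_mul 7)).congr_deriv ?_
    simp only [HTEN_phi]
    push_cast
    ring

lemma HTEN_s_ray {L : ℝ} (T : ℝ) (hL : 0 < L) (r : ℝ) (hr : -1 < r) :
    HTEN_s ((1 + r) * L, (1 + r) * T) = HTEN_phi L T 0 r := by
  have h1r : 0 < 1 + r := by linarith
  have e1 : (((1 : ℕ) : ℝ)) * ((1 + r) * L) / 2 = (1 + r) * (L / 2) := by
    push_cast
    ring
  have e4 : (((4 : ℕ) : ℝ)) * ((1 + r) * L) / 2 = (1 + r) * (2 * L) := by
    push_cast
    ring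
  have e2 : 28 * ((1 + r) * T) ^ 2 / ((1 + r) * L) = (1 + r) * (28 * T ^ 2 / L) := by
    field_simp
  unfold HTEN_s FU shb HTEN_phi
  simp only [e1, e4, e2]

/-- derivatives of the elementary part in the direction `b₁` -/
lemma HTEN_s_b (σ : ℝ) : (∀ x ∈ HTEN_S, (Dd (0, σ))^[1] HTEN_s x = 56 * σ * x.2 / x.1) ∧
    (∀ x ∈ HTEN_S, (Dd (0, σ))^[2] HTEN_s x = 56 * σ ^ 2 / x.1) ∧
    (∀ x ∈ HTEN_S, (Dd (0, σ))^[3] HTEN_s x = 0) ∧
    (∀ x ∈ HTEN_S, (Dd (0, σ))^[4] HTEN_s x = 0) := by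
  have h1 : ∀ x ∈ HTEN_S, (Dd (0, σ))^[1] HTEN_s x = 56 * σ * x.2 / x.1 := by
    refine HTEN_HD_eq HTEN_s_Sm ?_
    intro x hx
    have e : (fun t : ℝ => HTEN_s (x + t • ((0, σ) : ℝ × ℝ)))
        = fun t => 28 * (x.2 + t * σ) ^ 2 / x.1 +
          (- 23 * Real.log x.1 - 5 * shb 1 x - 7 * shb 4 x) := by
      funext t
      unfold HTEN_s FU shb
      simp
      ring
    rw [e]
    have d0 : HasDerivAt (fun t : ℝ => x.2 + t * σ) σ 0 := by
      simpa using ((hasDerivAt_id (0 : ℝ)).mul_const σ).const_add x.2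
    have d1 := (((d0.fun_pow 2).const_mul 28).div_const x.1).add_const
      (- 23 * Real.log x.1 - 5 * shb 1 x - 7 * shb 4 x)
    refine d1.congr_deriv ?_
    simp
    ring
  have h2 : ∀ x ∈ HTEN_S, (Dd (0, σ))^[2] HTEN_s x = 56 * σ ^ 2 / x.1 := by
    intro x hx
    rw [Function.iterate_succ_apply', HTEN_congr h1 (0, σ) x hx]
    refine HTEN_HD_eq (g := fun x => 56 * σ ^ 2 / x.1) (HTEN_Sm_congr
      (HTEN_it_Sm HTEN_s_Sm (0, σ) 1) (fun y hy => (h1 y hy).symm)) ?_ x hx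
    intro y hy
    have e : (fun t : ℝ => 56 * σ * (y + t • ((0, σ) : ℝ × ℝ)).2 / (y + t • ((0, σ) : ℝ × ℝ)).1)
        = fun t => 56 * σ * (y.2 + t * σ) / y.1 := by
      funext t
      simp
    rw [e]
    have d0 : HasDerivAt (fun t : ℝ => y.2 + t * σ) σ 0 := by
      simpa using ((hasDerivAt_id (0 : ℝ)).mul_const σ).const_add y.2
    refine ((d0.const_mul (56 * σ)).div_const y.1).congr_deriv ?_
    ring
  have h3 : ∀ x ∈ HTEN_S, (Dd (0, σ))^[3] HTEN_s x = 0 := by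
    intro x hx
    rw [Function.iterate_succ_apply', HTEN_congr h2 (0, σ) x hx]
    refine HTEN_HD_eq (g := fun _ => 0) (HTEN_Sm_congr (HTEN_it_Sm HTEN_s_Sm (0, σ) 2)
      (fun y hy => (h2 y hy).symm)) ?_ x hx
    intro y hy
    have e : (fun t : ℝ => 56 * σ ^ 2 / (y + t • ((0, σ) : ℝ × ℝ)).1)
        = fun t => 56 * σ ^ 2 / y.1 := by
      funext t
      simp
    rw [e]
    exact hasDerivAt_const _ _
  refine ⟨h1, h2, h3, ?_⟩
  intro x hx
  rw [Function.iterate_succ_apply', HTEN_congr h3 (0, σ) x hx]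
  simp [Dd]

theorem HTEN_tenS {L : ℝ} (T : ℝ) (hL : 0 < L) :
    tenOf HTEN_s (L, T) (0, Real.sqrt (L / 56)) (L, T) = tenS L := by
  have hp : ((L, T) : ℝ × ℝ) ∈ HTEN_S := hL
  have hsm := HTEN_s_Sm
  obtain ⟨b1, b2, b3, b4⟩ := HTEN_s_b (Real.sqrt (L / 56))
  set σ : ℝ := Real.sqrt (L / 56) with hσ
  have hσ2 : 56 * σ ^ 2 = L := by
    rw [hσ, Real.sq_sqrt (by positivity)]
    ring
  have z : (-1 : ℝ) < 0 := by norm_num
  have fix : (((1 + 0) * L, (1 + 0) * T) : ℝ × ℝ) = (L, T) := by norm_num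
  -- no derivative in direction b₁
  have c0 := HTEN_rays hL hsm (HTEN_phi L T) 4 (HTEN_s_ray T hL) (HTEN_phi_deriv T hL)
  -- one derivative
  have c1 := HTEN_rays (T := T) hL (HTEN_it_Sm hsm (0, σ) 1)
    (fun n _ => if n = 0 then 56 * σ * T / L else 0) 3 (by
      intro r hr
      have h1r : 0 < 1 + r := by linarith
      rw [b1 _ (show 0 < (1 + r) * L by positivity)]
      simp only [if_true]
      field_simp) (by
      intro n _ r _
      simp only [Nat.succ_ne_zero, if_false]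
      exact hasDerivAt_const _ _)
  have c2 := HTEN_rays (T := T) hL (HTEN_it_Sm hsm (0, σ) 2)
    (fun n r => if n = 0 then (1 + r)⁻¹ ^ 1 else if n = 1 then -(1 + r)⁻¹ ^ 2 else
      2 * (1 + r)⁻¹ ^ 3) 2 (by
      intro r hr
      have h1r : 0 < 1 + r := by linarith
      rw [b2 _ (show 0 < (1 + r) * L by positivity), hσ2]
      simp only [if_true]
      field_simp) (by
      intro n hn r hr
      interval_cases n
      · simpa using HTEN_inv_pow hr 1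
      · simpa using (HTEN_inv_pow hr 2).fun_neg)
  have c3 := HTEN_rays (T := T) hL (HTEN_it_Sm hsm (0, σ) 3) (fun _ _ => 0) 1 (by
      intro r hr
      have h1r : 0 < 1 + r := by linarith
      exact b3 _ (show 0 < (1 + r) * L by positivity)) (by
      intro n _ r _
      exact hasDerivAt_const _ _)
  have u02 := c0 2 (by norm_num) 0 z
  have u03 := c0 3 (by norm_num) 0 z
  have u04 := c0 4 (by norm_num) 0 z
  have u11 := c1 1 (by norm_num) 0 z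
  have u12 := c1 2 (by norm_num) 0 z
  have u13 := c1 3 (by norm_num) 0 z
  have u20 := c2 0 (by norm_num) 0 z
  have u21 := c2 1 (by norm_num) 0 z
  have u22 := c2 2 (by norm_num) 0 z
  have u31 := c3 1 (by norm_num) 0 z
  rw [fix] at u02 u03 u04 u11 u12 u13 u20 u21 u22 u31
  rw [HTEN_tenOf2]
  simp only [HTEN_comm2 hsm (0, σ) (L, T) _ _ _ hp]
  rw [u11, u12, u13, u21, u22, u31]
  simp only [Function.iterate_zero, id_eq] at u20 ⊢
  rw [u02, u03, u04, u20, b3 _ hp, b4 _ hp]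
  have hs1 : Real.sinh (L / 2) ≠ 0 := (Real.sinh_pos_iff.2 (by positivity)).ne'
  have hs2 : Real.sinh (2 * L) ≠ 0 := (Real.sinh_pos_iff.2 (by positivity)).ne'
  funext i
  fin_cases i <;> simp [tenS, HTEN_phi, bb2, bb3, bb4] <;> field_simp <;> ring

/-- the statement of the module -/
theorem st_HTEN : ST_HTEN := by
  intro L T hL
  have hp : ((L, T) : ℝ × ℝ) ∈ HTEN_S := hL
  have k1 : 1 ≤ 1 := le_rfl
  have k2 : 1 ≤ 2 := by norm_num
  have k4 : 1 ≤ 4 := by norm_num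
  have s1 := HTEN_log_Sm (HTEN_thd_Sm k1) (fun x hx => HTEN_thd_pos k1 hx)
  have s2 := HTEN_log_Sm (HTEN_thd_Sm k2) (fun x hx => HTEN_thd_pos k2 hx)
  have s4 := HTEN_log_Sm (HTEN_thd_Sm k4) (fun x hx => HTEN_thd_pos k4 hx)
  have m1 := HTEN_Sm_smul s1 4
  have m2 := HTEN_Sm_smul s2 10
  have m4 := HTEN_Sm_smul s4 8
  have a1 := HTEN_Sm_add HTEN_s_Sm m1
  have a2 := HTEN_Sm_add a1 m2
  rw [HTEN_tenOf_congr (fun x _ => HTEN_split x) hp, HTEN_tenOf_add a2 m4 hp,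
    HTEN_tenOf_add a1 m2 hp, HTEN_tenOf_add HTEN_s_Sm m1 hp, HTEN_tenOf_smul s1 4 hp,
    HTEN_tenOf_smul s2 10 hp, HTEN_tenOf_smul s4 8 hp, HTEN_tenS T hL,
    HTEN_log (HTEN_thd_Sm k1) (fun x hx => HTEN_thd_pos k1 hx) _ _ hp,
    HTEN_log (HTEN_thd_Sm k2) (fun x hx => HTEN_thd_pos k2 hx) _ _ hp,
    HTEN_log (HTEN_thd_Sm k4) (fun x hx => HTEN_thd_pos k4 hx) _ _ hp]
  have hcongr : ∀ k : ℕ, 1 ≤ k →
      lgR (fun a n => ((Dd (0, Real.sqrt (L / 56)))^[a] ((Dd (L, T))^[n] (thd k))) (L, T))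
        = lgR (uH k L (2 * Real.pi * (T / L - 1 / 2))) := by
    intro k hk
    have h := fun a b (hb : b ≤ 4) => HTEN_uH hk T hL a b hb
    unfold lgR
    simp only [h _ 0 (by norm_num), h _ 1 (by norm_num), h _ 2 (by norm_num),
      h _ 3 (by norm_num), h _ 4 (by norm_num)]
  rw [hcongr 1 k1, hcongr 2 k2, hcongr 4 k4]
  rfl

end RicP
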