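import Pool.Agent.Helper88.Ric.Stmts

/-!
MP_092777_ag, module HTEN, part A: calculus of iterated directional derivatives on the half plane
and the logarithm formula.
-/

set_option autoImplicit false

open scoped ContDiff Topology

noncomputable section

namespace RicP

/-- the half plane `L > 0` -/
def HTEN_S : Set (ℝ × ℝ) := {p | 0 < p.1}

lemma HTEN_open : IsOpen HTEN_S := isOpen_lt continuous_const continuous_fst

/-- smooth on the half plane -/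
def HTEN_Sm (f : ℝ × ℝ → ℝ) : Prop := ContDiffOn ℝ ∞ f HTEN_S

lemma HTEN_at {f : ℝ × ℝ → ℝ} (hf : HTEN_Sm f) {x : ℝ × ℝ} (hx : x ∈ HTEN_S) :
    ContDiffAt ℝ ∞ f x := (hf x hx).contDiffAt (HTEN_open.mem_nhds hx)

lemma HTEN_diff {f : ℝ × ℝ → ℝ} (hf : HTEN_Sm f) {x : ℝ × ℝ} (hx : x ∈ HTEN_S) :
    DifferentiableAt ℝ f x := (HTEN_at hf hx).differentiableAt (by simp)

lemma HTEN_Dd {f : ℝ × ℝ → ℝ} (hf : HTEN_Sm f) (b : ℝ × ℝ) : HTEN_Sm (Dd b f) := by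
  have h : ContDiffOn ℝ ∞ (fderiv ℝ f) HTEN_S :=
    ContDiffOn.fderiv_of_isOpen (n := ∞) hf HTEN_open (by simp)
  exact h.clm_apply contDiffOn_const

lemma HTEN_congr {f g : ℝ × ℝ → ℝ} (h : ∀ x ∈ HTEN_S, f x = g x) (b : ℝ × ℝ) :
    ∀ x ∈ HTEN_S, Dd b f x = Dd b g x := by
  intro x hx
  have h1 : f =ᶠ[𝓝 x] g := by
    filter_upwards [HTEN_open.mem_nhds hx] with y hy using h y hy
  unfold Dd
  rw [h1.fderiv_eq]

lemma HTEN_Sm_congr {f g : ℝ × ℝ → ℝ} (hg : HTEN_Sm g) (h : ∀ x ∈ HTEN_S, f x = g x) :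
    HTEN_Sm f := ContDiffOn.congr hg h

lemma HTEN_comm {f : ℝ × ℝ → ℝ} (hf : HTEN_Sm f) (b c : ℝ × ℝ) {x : ℝ × ℝ} (hx : x ∈ HTEN_S) :
    Dd b (Dd c f) x = Dd c (Dd b f) x := by
  have h := HTEN_at hf hx
  have hsym : IsSymmSndFDerivAt ℝ f x := h.isSymmSndFDerivAt (by
    rw [minSmoothness_of_isRCLikeNormedField]
    exact ENat.LEInfty.out)
  have hd : DifferentiableAt ℝ (fderiv ℝ f) x := by
    have h2 : ContDiffAt ℝ 1 (fderiv ℝ f) x := h.fderiv_right (m := 1) (by norm_cast)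
    exact h2.differentiableAt (by simp)
  have e : ∀ v w : ℝ × ℝ, Dd v (Dd w f) x = fderiv ℝ (fderiv ℝ f) x v w := by
    intro v w
    unfold Dd
    rw [fderiv_clm_apply hd (by fun_prop)]
    simp
  rw [e, e]
  exact hsym b c

/-- iterated directional derivatives along a list of vectors, the last one is applied first -/
def HTEN_D : List (ℝ × ℝ) → (ℝ × ℝ → ℝ) → (ℝ × ℝ → ℝ)
  | [], f => f
  | b :: l, f => Dd b (HTEN_D l f)

lemma HTEN_D_Sm {f : ℝ × ℝ → ℝ} (hf : HTEN_Sm f) (l : List (ℝ × ℝ)) : HTEN_Sm (HTEN_D l f) := by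
  induction l with
  | nil => exact hf
  | cons b l ih => exact HTEN_Dd ih b

lemma HTEN_D_congr {f g : ℝ × ℝ → ℝ} (h : ∀ x ∈ HTEN_S, f x = g x) (l : List (ℝ × ℝ)) :
    ∀ x ∈ HTEN_S, HTEN_D l f x = HTEN_D l g x := by
  induction l with
  | nil => exact h
  | cons b l ih => exact HTEN_congr ih b

lemma HTEN_Dd_add {f g : ℝ × ℝ → ℝ} (hf : HTEN_Sm f) (hg : HTEN_Sm g) (b : ℝ × ℝ) {x : ℝ × ℝ}
    (hx : x ∈ HTEN_S) : Dd b (fun y => f y + g y) x = Dd b f x + Dd b g x := by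
  unfold Dd
  rw [fderiv_fun_add (HTEN_diff hf hx) (HTEN_diff hg hx)]
  simp

lemma HTEN_Dd_smul {f : ℝ × ℝ → ℝ} (hf : HTEN_Sm f) (c : ℝ) (b : ℝ × ℝ) {x : ℝ × ℝ}
    (hx : x ∈ HTEN_S) : Dd b (fun y => c * f y) x = c * Dd b f x := by
  unfold Dd
  rw [fderiv_const_mul (HTEN_diff hf hx)]
  simp

lemma HTEN_Sm_add {f g : ℝ × ℝ → ℝ} (hf : HTEN_Sm f) (hg : HTEN_Sm g) :
    HTEN_Sm (fun y => f y + g y) := ContDiffOn.add hf hg

lemma HTEN_Sm_smul {f : ℝ × ℝ → ℝ} (hf : HTEN_Sm f) (c : ℝ) :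
    HTEN_Sm (fun y => c * f y) := contDiffOn_const.mul hf

lemma HTEN_Sm_mul {f g : ℝ × ℝ → ℝ} (hf : HTEN_Sm f) (hg : HTEN_Sm g) :
    HTEN_Sm (fun y => f y * g y) := ContDiffOn.mul hf hg

lemma HTEN_D_add {f g : ℝ × ℝ → ℝ} (hf : HTEN_Sm f) (hg : HTEN_Sm g) (l : List (ℝ × ℝ)) :
    ∀ x ∈ HTEN_S, HTEN_D l (fun y => f y + g y) x = HTEN_D l f x + HTEN_D l g x := by
  induction l with
  | nil => intro x _; rfl
  | cons b l ih =>
    intro x hx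
    have h1 : HTEN_D (b :: l) (fun y => f y + g y) x
        = Dd b (fun y => HTEN_D l f y + HTEN_D l g y) x := HTEN_congr ih b x hx
    rw [h1, HTEN_Dd_add (HTEN_D_Sm hf l) (HTEN_D_Sm hg l) b hx]
    rfl

lemma HTEN_D_smul {f : ℝ × ℝ → ℝ} (hf : HTEN_Sm f) (c : ℝ) (l : List (ℝ × ℝ)) :
    ∀ x ∈ HTEN_S, HTEN_D l (fun y => c * f y) x = c * HTEN_D l f x := by
  induction l with
  | nil => intro x _; rfl
  | cons b l ih =>
    intro x hx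
    have h1 : HTEN_D (b :: l) (fun y => c * f y) x = Dd b (fun y => c * HTEN_D l f y) x :=
      HTEN_congr ih b x hx
    rw [h1, HTEN_Dd_smul (HTEN_D_Sm hf l) c b hx]
    rfl

lemma HTEN_tenOf (ψ : ℝ × ℝ → ℝ) (p b c : ℝ × ℝ) : tenOf ψ p b c =
    ![HTEN_D [b, b] ψ p, HTEN_D [b, c] ψ p, HTEN_D [c, c] ψ p,
      HTEN_D [b, b, b] ψ p, HTEN_D [b, b, c] ψ p, HTEN_D [b, b, c] ψ p,
      HTEN_D [b, c, c] ψ p, HTEN_D [b, c, c] ψ p, HTEN_D [c, c, c] ψ p,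
      HTEN_D [b, b, b, b] ψ p, HTEN_D [b, b, b, c] ψ p,
      HTEN_D [b, b, c, c] ψ p, HTEN_D [b, b, c, c] ψ p,
      HTEN_D [b, c, c, c] ψ p, HTEN_D [c, c, c, c] ψ p] := rfl

lemma HTEN_tenOf_add {f g : ℝ × ℝ → ℝ} (hf : HTEN_Sm f) (hg : HTEN_Sm g) {p : ℝ × ℝ}
    (hp : p ∈ HTEN_S) (b c : ℝ × ℝ) :
    tenOf (fun y => f y + g y) p b c = tenOf f p b c + tenOf g p b c := by
  rw [HTEN_tenOf, HTEN_tenOf f, HTEN_tenOf g]
  simp only [HTEN_D_add hf hg _ p hp]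
  funext i
  fin_cases i <;> rfl

lemma HTEN_tenOf_smul {f : ℝ × ℝ → ℝ} (hf : HTEN_Sm f) (a : ℝ) {p : ℝ × ℝ}
    (hp : p ∈ HTEN_S) (b c : ℝ × ℝ) :
    tenOf (fun y => a * f y) p b c = a • tenOf f p b c := by
  rw [HTEN_tenOf, HTEN_tenOf f]
  simp only [HTEN_D_smul hf a _ p hp]
  funext i
  fin_cases i <;> rfl

lemma HTEN_tenOf_congr {f g : ℝ × ℝ → ℝ} (h : ∀ x ∈ HTEN_S, f x = g x) {p : ℝ × ℝ}
    (hp : p ∈ HTEN_S) (b c : ℝ × ℝ) : tenOf f p b c = tenOf g p b c := by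
  rw [HTEN_tenOf, HTEN_tenOf g]
  simp only [HTEN_D_congr h _ p hp]

/-- derivative along `b` on the half plane, as derivative along lines -/
def HTEN_HD (b : ℝ × ℝ) (f g : ℝ × ℝ → ℝ) : Prop :=
  ∀ x ∈ HTEN_S, HasDerivAt (fun t : ℝ => f (x + t • b)) (g x) 0

lemma HTEN_HD_of {f : ℝ × ℝ → ℝ} (hf : HTEN_Sm f) (b : ℝ × ℝ) : HTEN_HD b f (Dd b f) := by
  intro x hx
  have h1 : HasFDerivAt f (fderiv ℝ f x) x := (HTEN_diff hf hx).hasFDerivAt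
  have h2 : HasDerivAt (fun t : ℝ => x + t • b) b 0 := by
    have h3 : HasDerivAt (fun t : ℝ => t • b) ((1 : ℝ) • b) 0 := (hasDerivAt_id (0 : ℝ)).smul_const b
    rw [one_smul] at h3
    exact h3.const_add x
  have h1' : HasFDerivAt f (fderiv ℝ f x) (x + (0 : ℝ) • b) := by simpa using h1
  exact h1'.comp_hasDerivAt (0 : ℝ) h2

lemma HTEN_HD_eq {f g : ℝ × ℝ → ℝ} (hf : HTEN_Sm f) {b : ℝ × ℝ} (h : HTEN_HD b f g) :
    ∀ x ∈ HTEN_S, Dd b f x = g x := by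
  intro x hx
  exact (HTEN_HD_of hf b x hx).unique (h x hx)

lemma HTEN_HD_add {b : ℝ × ℝ} {f g f' g' : ℝ × ℝ → ℝ} (hf : HTEN_HD b f f')
    (hg : HTEN_HD b g g') : HTEN_HD b (fun y => f y + g y) (fun y => f' y + g' y) :=
  fun x hx => (hf x hx).fun_add (hg x hx)

lemma HTEN_HD_sub {b : ℝ × ℝ} {f g f' g' : ℝ × ℝ → ℝ} (hf : HTEN_HD b f f')
    (hg : HTEN_HD b g g') : HTEN_HD b (fun y => f y - g y) (fun y => f' y - g' y) :=
  fun x hx => (hf x hx).fun_sub (hg x hx)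

lemma HTEN_HD_smul {b : ℝ × ℝ} {f f' : ℝ × ℝ → ℝ} (c : ℝ) (hf : HTEN_HD b f f') :
    HTEN_HD b (fun y => c * f y) (fun y => c * f' y) :=
  fun x hx => (hf x hx).const_mul c

lemma HTEN_HD_mul {b : ℝ × ℝ} {f g f' g' : ℝ × ℝ → ℝ} (hf : HTEN_HD b f f')
    (hg : HTEN_HD b g g') :
    HTEN_HD b (fun y => f y * g y) (fun y => f' y * g y + f y * g' y) := by
  intro x hx
  have h := (hf x hx).fun_mul (hg x hx)
  simpa using h

lemma HTEN_HD_pow {b : ℝ × ℝ} {f f' : ℝ × ℝ → ℝ} (n : ℕ) (hf : HTEN_HD b f f') :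
    HTEN_HD b (fun y => f y ^ n) (fun y => n * f y ^ (n - 1) * f' y) := by
  intro x hx
  have h := (hf x hx).fun_pow n
  simpa using h

lemma HTEN_HD_congr {b : ℝ × ℝ} {f g g' : ℝ × ℝ → ℝ} (hf : HTEN_HD b f g)
    (h : ∀ x ∈ HTEN_S, g x = g' x) : HTEN_HD b f g' := by
  intro x hx
  rw [← h x hx]
  exact hf x hx

/-! ### The logarithm -/

section log
variable {u : ℝ × ℝ → ℝ} (hu : HTEN_Sm u) (hpos : ∀ x ∈ HTEN_S, 0 < u x) (b c : ℝ × ℝ)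
include hu hpos

/-- iterated derivatives, `a` times `b` and `n` times `c` -/
def HTEN_U (u : ℝ × ℝ → ℝ) (b c : ℝ × ℝ) (a n : ℕ) : ℝ × ℝ → ℝ := (Dd b)^[a] ((Dd c)^[n] u)

omit hpos in
lemma HTEN_it_Sm (n : ℕ) : HTEN_Sm ((Dd c)^[n] u) := by
  induction n with
  | zero => exact hu
  | succ n ih =>
    rw [Function.iterate_succ_apply']
    exact HTEN_Dd ih c

omit hpos in
lemma HTEN_U_Sm (a n : ℕ) : HTEN_Sm (HTEN_U u b c a n) := HTEN_it_Sm (HTEN_it_Sm hu c n) b a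

/-- normalised derivatives -/
def HTEN_m (u : ℝ × ℝ → ℝ) (b c : ℝ × ℝ) (a n : ℕ) : ℝ × ℝ → ℝ :=
  fun x => HTEN_U u b c a n x / u x

lemma HTEN_m_Sm (a n : ℕ) : HTEN_Sm (HTEN_m u b c a n) :=
  ContDiffOn.div (HTEN_U_Sm hu b c a n) hu (fun x hx => (hpos x hx).ne')

lemma HTEN_m_b (a n : ℕ) : HTEN_HD b (HTEN_m u b c a n)
    (fun x => HTEN_m u b c (a + 1) n x - HTEN_m u b c a n x * HTEN_m u b c 1 0 x) := by
  intro x hx
  have h1 := HTEN_HD_of (HTEN_U_Sm hu b c a n) b x hx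
  have h2 := HTEN_HD_of hu b x hx
  have h0 : u x ≠ 0 := (hpos x hx).ne'
  have h3 := h1.fun_div h2 (by simpa using h0)
  have e1 : Dd b (HTEN_U u b c a n) = HTEN_U u b c (a + 1) n := by
    unfold HTEN_U
    rw [Function.iterate_succ_apply']
  have e2 : Dd b u = HTEN_U u b c 1 0 := rfl
  rw [e1, e2] at h3
  simp only [zero_smul, add_zero] at h3
  have e3 : (HTEN_U u b c (a + 1) n x * u x - HTEN_U u b c a n x * HTEN_U u b c 1 0 x) / u x ^ 2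
      = HTEN_m u b c (a + 1) n x - HTEN_m u b c a n x * HTEN_m u b c 1 0 x := by
    unfold HTEN_m
    field_simp
  rw [e3] at h3
  exact h3

lemma HTEN_m_c (n : ℕ) : HTEN_HD c (HTEN_m u b c 0 n)
    (fun x => HTEN_m u b c 0 (n + 1) x - HTEN_m u b c 0 n x * HTEN_m u b c 0 1 x) := by
  intro x hx
  have h1 := HTEN_HD_of (HTEN_U_Sm hu b c 0 n) c x hx
  have h2 := HTEN_HD_of hu c x hx
  have h0 : u x ≠ 0 := (hpos x hx).ne'
  have h3 := h1.fun_div h2 (by simpa using h0)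
  have e1 : Dd c (HTEN_U u b c 0 n) = HTEN_U u b c 0 (n + 1) := by
    unfold HTEN_U
    rw [Function.iterate_succ_apply']
    rfl
  have e2 : Dd c u = HTEN_U u b c 0 1 := rfl
  rw [e1, e2] at h3
  simp only [zero_smul, add_zero] at h3
  have e3 : (HTEN_U u b c 0 (n + 1) x * u x - HTEN_U u b c 0 n x * HTEN_U u b c 0 1 x) / u x ^ 2
      = HTEN_m u b c 0 (n + 1) x - HTEN_m u b c 0 n x * HTEN_m u b c 0 1 x := by
    unfold HTEN_m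
    field_simp
  rw [e3] at h3
  exact h3

lemma HTEN_log_Sm : HTEN_Sm (fun x => Real.log (u x)) :=
  ContDiffOn.log hu (fun x hx => (hpos x hx).ne')

lemma HTEN_log_b : HTEN_HD b (fun x => Real.log (u x)) (HTEN_m u b c 1 0) := by
  intro x hx
  have h2 := HTEN_HD_of hu b x hx
  have h0 : u x ≠ 0 := (hpos x hx).ne'
  have h3 := h2.log (by simpa using h0)
  simp only [zero_smul, add_zero] at h3
  exact h3

lemma HTEN_log_c : HTEN_HD c (fun x => Real.log (u x)) (HTEN_m u b c 0 1) := by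
  intro x hx
  have h2 := HTEN_HD_of hu c x hx
  have h0 : u x ≠ 0 := (hpos x hx).ne'
  have h3 := h2.log (by simpa using h0)
  simp only [zero_smul, add_zero] at h3
  exact h3

end log

/-- step of the computation of iterated derivatives -/
lemma HTEN_step {f h g : ℝ × ℝ → ℝ} {b : ℝ × ℝ} {l : List (ℝ × ℝ)} (hf : HTEN_Sm f)
    (e : ∀ x ∈ HTEN_S, HTEN_D l f x = h x) (hd : HTEN_HD b h g) :
    ∀ x ∈ HTEN_S, HTEN_D (b :: l) f x = g x := by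
  have hh : HTEN_Sm h := HTEN_Sm_congr (HTEN_D_Sm hf l) (fun x hx => (e x hx).symm)
  intro x hx
  have h1 : HTEN_D (b :: l) f x = Dd b h x := HTEN_congr e b x hx
  rw [h1]
  exact HTEN_HD_eq hh hd x hx

/-- the logarithm formula -/
theorem HTEN_log {u : ℝ × ℝ → ℝ} (hu : HTEN_Sm u) (hpos : ∀ x ∈ HTEN_S, 0 < u x) (b c : ℝ × ℝ)
    {p : ℝ × ℝ} (hp : p ∈ HTEN_S) :
    tenOf (fun x => Real.log (u x)) p b c = lgR (fun a n => ((Dd b)^[a] ((Dd c)^[n] u)) p) := by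
  have hv := HTEN_log_Sm hu hpos
  have mb := HTEN_m_b hu hpos b c
  have mc := HTEN_m_c hu hpos b c
  have v10 : ∀ x ∈ HTEN_S, HTEN_D [b] (fun x => Real.log (u x)) x = HTEN_m u b c 1 0 x :=
    HTEN_HD_eq hv (HTEN_log_b hu hpos b c)
  have v01 : ∀ x ∈ HTEN_S, HTEN_D [c] (fun x => Real.log (u x)) x = HTEN_m u b c 0 1 x :=
    HTEN_HD_eq hv (HTEN_log_c hu hpos b c)
  have hm : ∀ a n, HTEN_m u b c a n p = (Dd b)^[a] ((Dd c)^[n] u) p / u p := fun a n => rfl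
  generalize HTEN_m u b c = m at mb mc v10 v01 hm
  have v20 : ∀ x ∈ HTEN_S, HTEN_D [b, b] (fun x => Real.log (u x)) x =
      m 2 0 x - m 1 0 x ^ 2 := by
    refine HTEN_step hv v10 (HTEN_HD_congr (mb 1 0) ?_)
    intro x _
    push_cast
    ring
  have v30 : ∀ x ∈ HTEN_S, HTEN_D [b, b, b] (fun x => Real.log (u x)) x =
      m 3 0 x - 3 * m 2 0 x * m 1 0 x + 2 * m 1 0 x ^ 3 := by
    refine HTEN_step hv v20 (HTEN_HD_congr (HTEN_HD_sub (mb 2 0) (HTEN_HD_pow 2 (mb 1 0))) ?_)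
    intro x _
    push_cast
    ring
  have v40 : ∀ x ∈ HTEN_S, HTEN_D [b, b, b, b] (fun x => Real.log (u x)) x =
      m 4 0 x - 4 * m 3 0 x * m 1 0 x - 3 * m 2 0 x ^ 2 + 12 * m 2 0 x * m 1 0 x ^ 2 - 6 * m 1 0 x ^ 4 := by
    refine HTEN_step hv v30 (HTEN_HD_congr (HTEN_HD_add (HTEN_HD_sub (mb 3 0) (HTEN_HD_mul (HTEN_HD_smul 3 (mb 2 0)) (mb 1 0))) (HTEN_HD_smul 2 (HTEN_HD_pow 3 (mb 1 0)))) ?_)
    intro x _
    push_cast
    ring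
  have v02 : ∀ x ∈ HTEN_S, HTEN_D [c, c] (fun x => Real.log (u x)) x =
      m 0 2 x - m 0 1 x ^ 2 := by
    refine HTEN_step hv v01 (HTEN_HD_congr (mc 1) ?_)
    intro x _
    push_cast
    ring
  have v03 : ∀ x ∈ HTEN_S, HTEN_D [c, c, c] (fun x => Real.log (u x)) x =
      m 0 3 x - 3 * m 0 2 x * m 0 1 x + 2 * m 0 1 x ^ 3 := by
    refine HTEN_step hv v02 (HTEN_HD_congr (HTEN_HD_sub (mc 2) (HTEN_HD_pow 2 (mc 1))) ?_)
    intro x _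
    push_cast
    ring
  have v04 : ∀ x ∈ HTEN_S, HTEN_D [c, c, c, c] (fun x => Real.log (u x)) x =
      m 0 4 x - 4 * m 0 3 x * m 0 1 x - 3 * m 0 2 x ^ 2 + 12 * m 0 2 x * m 0 1 x ^ 2 - 6 * m 0 1 x ^ 4 := by
    refine HTEN_step hv v03 (HTEN_HD_congr (HTEN_HD_add (HTEN_HD_sub (mc 3) (HTEN_HD_mul (HTEN_HD_smul 3 (mc 2)) (mc 1))) (HTEN_HD_smul 2 (HTEN_HD_pow 3 (mc 1)))) ?_)
    intro x _
    push_cast
    ring
  have v11 : ∀ x ∈ HTEN_S, HTEN_D [b, c] (fun x => Real.log (u x)) x =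
      m 1 1 x - m 1 0 x * m 0 1 x := by
    refine HTEN_step hv v01 (HTEN_HD_congr (mb 0 1) ?_)
    intro x _
    push_cast
    ring
  have v21 : ∀ x ∈ HTEN_S, HTEN_D [b, b, c] (fun x => Real.log (u x)) x =
      m 2 1 x - m 2 0 x * m 0 1 x - 2 * m 1 1 x * m 1 0 x + 2 * m 1 0 x ^ 2 * m 0 1 x := by
    refine HTEN_step hv v11 (HTEN_HD_congr (HTEN_HD_sub (mb 1 1) (HTEN_HD_mul (mb 1 0) (mb 0 1))) ?_)
    intro x _
    push_cast
    ring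
  have v31 : ∀ x ∈ HTEN_S, HTEN_D [b, b, b, c] (fun x => Real.log (u x)) x =
      m 3 1 x - m 3 0 x * m 0 1 x - 3 * m 2 1 x * m 1 0 x - 3 * m 2 0 x * m 1 1 x + 6 * m 2 0 x * m 1 0 x * m 0 1 x + 6 * m 1 1 x * m 1 0 x ^ 2 - 6 * m 1 0 x ^ 3 * m 0 1 x := by
    refine HTEN_step hv v21 (HTEN_HD_congr (HTEN_HD_add (HTEN_HD_sub (HTEN_HD_sub (mb 2 1) (HTEN_HD_mul (mb 2 0) (mb 0 1))) (HTEN_HD_mul (HTEN_HD_smul 2 (mb 1 1)) (mb 1 0))) (HTEN_HD_mul (HTEN_HD_smul 2 (HTEN_HD_pow 2 (mb 1 0))) (mb 0 1))) ?_)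
    intro x _
    push_cast
    ring
  have v12 : ∀ x ∈ HTEN_S, HTEN_D [b, c, c] (fun x => Real.log (u x)) x =
      m 1 2 x - m 0 2 x * m 1 0 x - 2 * m 1 1 x * m 0 1 x + 2 * m 1 0 x * m 0 1 x ^ 2 := by
    refine HTEN_step hv v02 (HTEN_HD_congr (HTEN_HD_sub (mb 0 2) (HTEN_HD_pow 2 (mb 0 1))) ?_)
    intro x _
    push_cast
    ring
  have v22 : ∀ x ∈ HTEN_S, HTEN_D [b, b, c, c] (fun x => Real.log (u x)) x =
      m 2 2 x - 2 * m 2 1 x * m 0 1 x - 2 * m 1 2 x * m 1 0 x - m 2 0 x * m 0 2 x - 2 * m 1 1 x ^ 2 + 2 * m 2 0 x * m 0 1 x ^ 2 + 2 * m 0 2 x * m 1 0 x ^ 2 + 8 * m 1 1 x * m 1 0 x * m 0 1 x - 6 * m 1 0 x ^ 2 * m 0 1 x ^ 2 := by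
    refine HTEN_step hv v12 (HTEN_HD_congr (HTEN_HD_add (HTEN_HD_sub (HTEN_HD_sub (mb 1 2) (HTEN_HD_mul (mb 0 2) (mb 1 0))) (HTEN_HD_mul (HTEN_HD_smul 2 (mb 1 1)) (mb 0 1))) (HTEN_HD_mul (HTEN_HD_smul 2 (mb 1 0)) (HTEN_HD_pow 2 (mb 0 1)))) ?_)
    intro x _
    push_cast
    ring
  have v13 : ∀ x ∈ HTEN_S, HTEN_D [b, c, c, c] (fun x => Real.log (u x)) x =
      m 1 3 x - m 0 3 x * m 1 0 x - 3 * m 1 2 x * m 0 1 x - 3 * m 0 2 x * m 1 1 x + 6 * m 0 2 x * m 0 1 x * m 1 0 x + 6 * m 1 1 x * m 0 1 x ^ 2 - 6 * m 0 1 x ^ 3 * m 1 0 x := by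
    refine HTEN_step hv v03 (HTEN_HD_congr (HTEN_HD_add (HTEN_HD_sub (mb 0 3) (HTEN_HD_mul (HTEN_HD_smul 3 (mb 0 2)) (mb 0 1))) (HTEN_HD_smul 2 (HTEN_HD_pow 3 (mb 0 1)))) ?_)
    intro x _
    push_cast
    ring
  rw [HTEN_tenOf, v20 p hp, v11 p hp, v02 p hp, v30 p hp, v21 p hp, v12 p hp, v03 p hp, v40 p hp,
    v31 p hp, v22 p hp, v13 p hp, v04 p hp]
  simp only [hm, lgR, Function.iterate_zero, id_eq]

end RicP
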