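import Pool.Agent.Helper26.Ric.HTENA

/-!
MP_092777_ag, module HTEN, part B: the family of theta functions `∑ m^n cos(mθ + aπ/2) e^{-cm²/L}`.
-/

set_option autoImplicit false

open scoped ContDiff Topology

noncomputable section

namespace RicP

/-- the `m`-th term -/
def HTEN_tm (k n a : ℕ) (m : ℤ) (p : ℝ × ℝ) : ℝ :=
  (m : ℝ) ^ n * Real.cos (2 * Real.pi * m * (p.2 / p.1 - 1 / 2) + a * (Real.pi / 2)) *
    Real.exp (-(2 * Real.pi ^ 2 * (m : ℝ) ^ 2) / (k * p.1))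

/-- the family of theta functions -/
def HTEN_G (k n a : ℕ) (p : ℝ × ℝ) : ℝ := ∑' m : ℤ, HTEN_tm k n a m p

lemma HTEN_thd (k : ℕ) (p : ℝ × ℝ) : thd k p = HTEN_G k 0 0 p := by
  unfold thd HTEN_G HTEN_tm
  refine tsum_congr fun m => ?_
  simp
  ring

/-- summable bound -/
def HTEN_B (c : ℝ) (n : ℕ) (m : ℤ) : ℝ := |(m : ℝ)| ^ n * Real.exp (-(c * (m : ℝ) ^ 2))

lemma HTEN_B_nonneg (c : ℝ) (n : ℕ) (m : ℤ) : 0 ≤ HTEN_B c n m := by
  unfold HTEN_B
  positivity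

lemma HTEN_B_summable {c : ℝ} (hc : 0 < c) (n : ℕ) : Summable (HTEN_B c n) := by
  have h := summable_pow_mul_jacobiTheta₂_term_bound 0 (T := c / Real.pi) (by positivity) n
  refine h.congr fun m => ?_
  have e : -Real.pi * (c / Real.pi * (m : ℝ) ^ 2 - 2 * 0 * ((|m| : ℤ) : ℝ))
      = -(c * (m : ℝ) ^ 2) := by
    have := Real.pi_pos.ne'
    field_simp
    ring
  unfold HTEN_B
  rw [← e, Int.cast_abs]

lemma HTEN_tm_le {k : ℕ} (hk : 1 ≤ k) (n a : ℕ) (m : ℤ) {M : ℝ} {p : ℝ × ℝ} (hp : 0 < p.1)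
    (hM : p.1 ≤ M) : |HTEN_tm k n a m p| ≤ HTEN_B (2 * Real.pi ^ 2 / (k * M)) n m := by
  have hk0 : (0 : ℝ) < k := by exact_mod_cast hk
  unfold HTEN_tm HTEN_B
  rw [abs_mul, abs_mul, abs_pow, Real.abs_exp]
  refine mul_le_mul ?_ (Real.exp_le_exp.2 ?_) (Real.exp_pos _).le (by positivity)
  · have h1 := Real.abs_cos_le_one (2 * Real.pi * m * (p.2 / p.1 - 1 / 2) + a * (Real.pi / 2))
    have h2 : (0 : ℝ) ≤ |(m : ℝ)| ^ n := by positivity
    nlinarith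
  · rw [neg_div, neg_le_neg_iff]
    have h1 : 2 * Real.pi ^ 2 / (k * M) * (m : ℝ) ^ 2 = 2 * Real.pi ^ 2 * (m : ℝ) ^ 2 / (k * M) := by
      ring
    rw [h1]
    refine div_le_div_of_nonneg_left (by positivity) (by positivity) ?_
    exact mul_le_mul_of_nonneg_left hM hk0.le

lemma HTEN_tm_summable {k : ℕ} (hk : 1 ≤ k) (n a : ℕ) {p : ℝ × ℝ} (hp : 0 < p.1) :
    Summable (fun m => HTEN_tm k n a m p) := by
  have hk0 : (0 : ℝ) < k := by exact_mod_cast hk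
  refine Summable.of_norm_bounded (HTEN_B_summable (c := 2 * Real.pi ^ 2 / (k * p.1))
    (by positivity) n) fun m => ?_
  rw [Real.norm_eq_abs]
  exact HTEN_tm_le hk n a m hp le_rfl

lemma HTEN_tm_deriv {k : ℕ} (hk : 1 ≤ k) (n a : ℕ) (m : ℤ) {p : ℝ × ℝ} (hp : 0 < p.1) :
    HasFDerivAt (HTEN_tm k n a m)
      ((2 * Real.pi ^ 2 / (k * p.1 ^ 2) * HTEN_tm k (n + 2) a m p
          - 2 * Real.pi * p.2 / p.1 ^ 2 * HTEN_tm k (n + 1) (a + 1) m p) •
            ContinuousLinearMap.fst ℝ ℝ ℝ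
        + (2 * Real.pi / p.1 * HTEN_tm k (n + 1) (a + 1) m p) •
            ContinuousLinearMap.snd ℝ ℝ ℝ) p := by
  have hk0 : (0 : ℝ) < k := by exact_mod_cast hk
  have h0 : p.1 ≠ 0 := hp.ne'
  have h1 : HasFDerivAt (fun q : ℝ × ℝ => q.1) (ContinuousLinearMap.fst ℝ ℝ ℝ) p := hasFDerivAt_fst
  have h2 : HasFDerivAt (fun q : ℝ × ℝ => q.2) (ContinuousLinearMap.snd ℝ ℝ ℝ) p := hasFDerivAt_snd
  have hi : HasFDerivAt (fun q : ℝ × ℝ => (q.1)⁻¹)
      ((-(p.1 ^ 2)⁻¹) • ContinuousLinearMap.fst ℝ ℝ ℝ) p :=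
    (hasDerivAt_inv h0).comp_hasFDerivAt p h1
  have hq := h2.mul hi
  have hth : HasFDerivAt (fun q : ℝ × ℝ =>
      2 * Real.pi * m * (q.2 * (q.1)⁻¹ - 1 / 2) + a * (Real.pi / 2)) _ p :=
    ((hq.sub_const (1 / 2)).const_mul (2 * Real.pi * m)).add_const (a * (Real.pi / 2))
  have hc := hth.cos
  have he := (hi.const_mul (-(2 * Real.pi ^ 2 * (m : ℝ) ^ 2) / k)).exp
  have hfin := (hc.const_mul ((m : ℝ) ^ n)).mul he
  have hfun : HTEN_tm k n a m = fun q : ℝ × ℝ => ((m : ℝ) ^ n *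
      Real.cos (2 * Real.pi * m * (q.2 * (q.1)⁻¹ - 1 / 2) + a * (Real.pi / 2))) *
      Real.exp (-(2 * Real.pi ^ 2 * (m : ℝ) ^ 2) / k * (q.1)⁻¹) := by
    funext q
    unfold HTEN_tm
    have e1 : -(2 * Real.pi ^ 2 * (m : ℝ) ^ 2) / (k * q.1)
        = -(2 * Real.pi ^ 2 * (m : ℝ) ^ 2) / k * (q.1)⁻¹ := by
      rw [div_eq_mul_inv, mul_inv, div_eq_mul_inv]
      ring
    rw [e1, div_eq_mul_inv q.2]
  rw [hfun]
  refine hfin.congr_fderiv ?_
  have e2 : ∀ y : ℝ, Real.cos (y + ((a + 1 : ℕ) : ℝ) * (Real.pi / 2))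
      = -Real.sin (y + a * (Real.pi / 2)) := by
    intro y
    have : y + ((a + 1 : ℕ) : ℝ) * (Real.pi / 2) = (y + a * (Real.pi / 2)) + Real.pi / 2 := by
      push_cast
      ring
    rw [this, Real.cos_add_pi_div_two]
  have e1 : -(2 * Real.pi ^ 2 * (m : ℝ) ^ 2) / (k * p.1)
        = -(2 * Real.pi ^ 2 * (m : ℝ) ^ 2) / k * (p.1)⁻¹ := by
      rw [div_eq_mul_inv, mul_inv, div_eq_mul_inv]
      ring
  ext
  · simp only [ContinuousLinearMap.coe_comp, Function.comp_apply, ContinuousLinearMap.inl_apply,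
      add_apply, smul_apply, smul_eq_mul,
      ContinuousLinearMap.coe_fst', ContinuousLinearMap.coe_snd', HTEN_tm, e2, e1,
      div_eq_mul_inv p.2 p.1]
    field_simp
    ring
  · simp only [ContinuousLinearMap.coe_comp, Function.comp_apply, ContinuousLinearMap.inr_apply,
      add_apply, smul_apply, smul_eq_mul,
      ContinuousLinearMap.coe_fst', ContinuousLinearMap.coe_snd', HTEN_tm, e2, e1,
      div_eq_mul_inv p.2 p.1]
    field_simp
    ring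

lemma HTEN_hs (A B : ℤ → ℝ) (SA SB : ℝ) (hA : HasSum A SA) (hB : HasSum B SB)
    (F1 F2 : ℝ × ℝ →L[ℝ] ℝ) : HasSum (fun m => A m • F1 + B m • F2) (SA • F1 + SB • F2) :=
  (hA.smul_const F1).add (hB.smul_const F2)

lemma HTEN_re (a b : ℝ) : (Complex.exp ((a : ℂ) + (b : ℂ) * Complex.I)).re
    = Real.exp a * Real.cos b := by
  rw [Complex.exp_re]
  simp

lemma HTEN_no (a b : ℝ) : ‖Complex.exp ((a : ℂ) + (b : ℂ) * Complex.I)‖ = Real.exp a := by
  rw [Complex.norm_exp]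
  simp

lemma HTEN_G_deriv {k : ℕ} (hk : 1 ≤ k) (n a : ℕ) {p : ℝ × ℝ} (hp : 0 < p.1) :
    HasFDerivAt (HTEN_G k n a)
      ((2 * Real.pi ^ 2 / (k * p.1 ^ 2) * HTEN_G k (n + 2) a p
          - 2 * Real.pi * p.2 / p.1 ^ 2 * HTEN_G k (n + 1) (a + 1) p) •
            ContinuousLinearMap.fst ℝ ℝ ℝ
        + (2 * Real.pi / p.1 * HTEN_G k (n + 1) (a + 1) p) •
            ContinuousLinearMap.snd ℝ ℝ ℝ) p := by
  have hk0 : (0 : ℝ) < k := by exact_mod_cast hk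
  have hpi := Real.pi_pos
  -- the rectangle
  obtain ⟨δ, hδ0, hδ⟩ : ∃ δ : ℝ, 0 < δ ∧ δ < p.1 := ⟨p.1 / 2, by linarith, by linarith⟩
  obtain ⟨M, hM1, hM2⟩ : ∃ M : ℝ, p.1 < M ∧ |p.2| < M :=
    ⟨p.1 + |p.2| + 1, by linarith [abs_nonneg p.2], by linarith [abs_nonneg p.2]⟩
  have hM0 : 0 < M := lt_trans hp hM1
  set c : ℝ := 2 * Real.pi ^ 2 / (k * M) with hc
  have hc0 : 0 < c := by positivity
  set s : Set (ℝ × ℝ) := Set.Ioo δ M ×ˢ Set.Ioo (-M) M with hs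
  have hso : IsOpen s := isOpen_Ioo.prod isOpen_Ioo
  have hsc : IsPreconnected s := ((convex_Ioo δ M).prod (convex_Ioo (-M) M)).isPreconnected
  have hps : p ∈ s := ⟨⟨hδ, hM1⟩, by rwa [Set.mem_Ioo, ← abs_lt]⟩
  set u : ℤ → ℝ := fun m => (2 * Real.pi ^ 2 / (k * δ ^ 2) * HTEN_B c (n + 2) m
      + 2 * Real.pi * M / δ ^ 2 * HTEN_B c (n + 1) m) * 1
      + (2 * Real.pi / δ * HTEN_B c (n + 1) m) * 1 with hu
  have hus : Summable u := by
    have h1 := HTEN_B_summable hc0 (n + 2)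
    have h2 := HTEN_B_summable hc0 (n + 1)
    exact (((h1.mul_left _).add (h2.mul_left _)).mul_right 1).add ((h2.mul_left _).mul_right 1)
  have hmain := hasFDerivAt_tsum_of_isPreconnected (𝕜 := ℝ) (u := u)
    (f := fun m => HTEN_tm k n a m)
    (f' := fun m q => ((2 * Real.pi ^ 2 / (k * q.1 ^ 2) * HTEN_tm k (n + 2) a m q
          - 2 * Real.pi * q.2 / q.1 ^ 2 * HTEN_tm k (n + 1) (a + 1) m q) •
            ContinuousLinearMap.fst ℝ ℝ ℝ
        + (2 * Real.pi / q.1 * HTEN_tm k (n + 1) (a + 1) m q) •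
            ContinuousLinearMap.snd ℝ ℝ ℝ)) hus hso hsc
    (fun m q hq => HTEN_tm_deriv hk n a m (lt_trans hδ0 hq.1.1)) ?_ hps
    (HTEN_tm_summable hk n a hp) hps
  · refine hmain.congr_fderiv ?_
    have s1 := HTEN_tm_summable hk (n + 2) a hp
    have s2 := HTEN_tm_summable hk (n + 1) (a + 1) hp
    have hA := (s1.hasSum.mul_left (2 * Real.pi ^ 2 / (k * p.1 ^ 2))).sub
      (s2.hasSum.mul_left (2 * Real.pi * p.2 / p.1 ^ 2))
    have hB := s2.hasSum.mul_left (2 * Real.pi / p.1)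
    have t1 := HTEN_hs _ _ _ _ hA hB (ContinuousLinearMap.fst ℝ ℝ ℝ)
      (ContinuousLinearMap.snd ℝ ℝ ℝ)
    exact t1.tsum_eq
  · intro m q hq
    obtain ⟨⟨hq1, hq2⟩, hq3⟩ := hq
    rw [Set.mem_Ioo, ← abs_lt] at hq3
    have hq0 : 0 < q.1 := lt_trans hδ0 hq1
    have b1 := HTEN_tm_le hk (n + 2) a m hq0 hq2.le
    have b2 := HTEN_tm_le hk (n + 1) (a + 1) m hq0 hq2.le
    rw [← hc] at b1 b2
    have n1 : ‖ContinuousLinearMap.fst ℝ ℝ ℝ‖ ≤ 1 := ContinuousLinearMap.norm_fst_le ℝ ℝ ℝ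
    have n2 : ‖ContinuousLinearMap.snd ℝ ℝ ℝ‖ ≤ 1 := ContinuousLinearMap.norm_snd_le ℝ ℝ ℝ
    have c1 : |2 * Real.pi ^ 2 / (k * q.1 ^ 2)| ≤ 2 * Real.pi ^ 2 / (k * δ ^ 2) := by
      rw [abs_of_nonneg (by positivity)]
      refine div_le_div_of_nonneg_left (by positivity) (by positivity) ?_
      gcongr
    have c2 : |2 * Real.pi * q.2 / q.1 ^ 2| ≤ 2 * Real.pi * M / δ ^ 2 := by
      rw [abs_div, abs_mul, abs_of_pos (show (0 : ℝ) < 2 * Real.pi by positivity),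
        abs_of_pos (show (0 : ℝ) < q.1 ^ 2 by positivity)]
      gcongr
    have c3 : |2 * Real.pi / q.1| ≤ 2 * Real.pi / δ := by
      rw [abs_of_nonneg (by positivity)]
      gcongr
    refine (norm_add_le _ _).trans (add_le_add ?_ ?_)
    · rw [norm_smul]
      refine mul_le_mul ?_ n1 (norm_nonneg _) ?_
      · rw [Real.norm_eq_abs]
        refine (abs_sub _ _).trans (add_le_add ?_ ?_)
        · rw [abs_mul]
          exact mul_le_mul c1 b1 (abs_nonneg _) (by positivity)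
        · rw [abs_mul]
          exact mul_le_mul c2 b2 (abs_nonneg _) (by positivity)
      · have := HTEN_B_nonneg c (n + 2) m
        have := HTEN_B_nonneg c (n + 1) m
        positivity
    · rw [norm_smul]
      refine mul_le_mul ?_ n2 (norm_nonneg _) ?_
      · rw [Real.norm_eq_abs, abs_mul]
        exact mul_le_mul c3 b2 (abs_nonneg _) (by positivity)
      · have := HTEN_B_nonneg c (n + 1) m
        positivity

lemma HTEN_G_contDiff {k : ℕ} (hk : 1 ≤ k) (N : ℕ) : ∀ n a : ℕ,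
    ContDiffOn ℝ N (HTEN_G k n a) HTEN_S := by
  have hd : ∀ n a : ℕ, DifferentiableOn ℝ (HTEN_G k n a) HTEN_S := fun n a p hp =>
    (HTEN_G_deriv hk n a hp).differentiableAt.differentiableWithinAt
  induction N with
  | zero =>
    intro n a
    exact contDiffOn_zero.2 (hd n a).continuousOn
  | succ N ih =>
    intro n a
    have hk0 : (0 : ℝ) < k := by exact_mod_cast hk
    refine (contDiffOn_succ_iff_fderiv_of_isOpen HTEN_open).2 ⟨hd n a, fun h => absurd h (WithTop.natCast_ne_top N), ?_⟩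
    have e : ∀ p ∈ HTEN_S, fderiv ℝ (HTEN_G k n a) p =
      ((2 * Real.pi ^ 2 / (k * p.1 ^ 2) * HTEN_G k (n + 2) a p
          - 2 * Real.pi * p.2 / p.1 ^ 2 * HTEN_G k (n + 1) (a + 1) p) •
            ContinuousLinearMap.fst ℝ ℝ ℝ
        + (2 * Real.pi / p.1 * HTEN_G k (n + 1) (a + 1) p) •
            ContinuousLinearMap.snd ℝ ℝ ℝ) := fun p hp => (HTEN_G_deriv hk n a hp).fderiv
    refine ContDiffOn.congr ?_ e
    have h1 : ContDiffOn ℝ N (fun p : ℝ × ℝ => p.1) HTEN_S := contDiff_fst.contDiffOn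
    have h2 : ContDiffOn ℝ N (fun p : ℝ × ℝ => p.2) HTEN_S := contDiff_snd.contDiffOn
    have g1 := ih (n + 2) a
    have g2 := ih (n + 1) (a + 1)
    have z1 : ∀ p ∈ HTEN_S, (k : ℝ) * p.1 ^ 2 ≠ 0 := fun p hp => by
      have : 0 < p.1 := hp
      positivity
    have z2 : ∀ p ∈ HTEN_S, p.1 ^ 2 ≠ 0 := fun p hp => by
      have : 0 < p.1 := hp
      positivity
    have z3 : ∀ p ∈ HTEN_S, p.1 ≠ 0 := fun p hp => (show 0 < p.1 from hp).ne'
    refine ContDiffOn.add (ContDiffOn.smul (ContDiffOn.sub (ContDiffOn.mul ?_ g1)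
      (ContDiffOn.mul ?_ g2)) contDiffOn_const) (ContDiffOn.smul (ContDiffOn.mul ?_ g2)
        contDiffOn_const)
    · exact contDiffOn_const.div (contDiffOn_const.mul (h1.pow 2)) z1
    · exact (contDiffOn_const.mul h2).div (h1.pow 2) z2
    · exact contDiffOn_const.div h1 z3

lemma HTEN_G_Sm {k : ℕ} (hk : 1 ≤ k) (n a : ℕ) : HTEN_Sm (HTEN_G k n a) :=
  contDiffOn_infty.2 fun N => HTEN_G_contDiff hk N n a

lemma HTEN_G_Dd {k : ℕ} (hk : 1 ≤ k) (n a : ℕ) (b : ℝ × ℝ) {p : ℝ × ℝ} (hp : p ∈ HTEN_S) :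
    Dd b (HTEN_G k n a) p =
      (2 * Real.pi ^ 2 / (k * p.1 ^ 2) * HTEN_G k (n + 2) a p
          - 2 * Real.pi * p.2 / p.1 ^ 2 * HTEN_G k (n + 1) (a + 1) p) * b.1
        + (2 * Real.pi / p.1 * HTEN_G k (n + 1) (a + 1) p) * b.2 := by
  unfold Dd
  rw [(HTEN_G_deriv hk n a hp).fderiv]
  simp

lemma HTEN_thd_Sm {k : ℕ} (hk : 1 ≤ k) : HTEN_Sm (thd k) :=
  HTEN_Sm_congr (HTEN_G_Sm hk 0 0) fun p _ => HTEN_thd k p

/-- positivity of the theta function -/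
lemma HTEN_thd_pos {k : ℕ} (hk : 1 ≤ k) {p : ℝ × ℝ} (hp : p ∈ HTEN_S) : 0 < thd k p := by
  have hk0 : (0 : ℝ) < k := by exact_mod_cast hk
  have hp0 : 0 < p.1 := hp
  have hpi := Real.pi_pos
  obtain ⟨x, hx⟩ : ∃ x : ℝ, x = p.2 / p.1 - 1 / 2 := ⟨_, rfl⟩
  obtain ⟨A, hA⟩ : ∃ A : ℝ, A = 2 * Real.pi / (k * p.1) := ⟨_, rfl⟩
  have hA0 : 0 < A := by
    rw [hA]
    positivity
  have h := Complex.tsum_exp_neg_quadratic (a := (A : ℂ)) (by simpa using hA0)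
    (Complex.I * (x : ℂ))
  -- the left side
  have hL : ∀ n : ℤ, Complex.exp (-Real.pi * A * (n : ℂ) ^ 2 + 2 * Real.pi * (Complex.I * x) * n)
      = Complex.exp (((-(2 * Real.pi ^ 2 * (n : ℝ) ^ 2) / (k * p.1) : ℝ) : ℂ)
        + ((2 * Real.pi * n * x : ℝ) : ℂ) * Complex.I) := by
    intro n
    congr 1
    have e : (-(2 * Real.pi ^ 2 * (n : ℝ) ^ 2) / (k * p.1) : ℝ) = -Real.pi * A * (n : ℝ) ^ 2 := by
      rw [hA]
      field_simp
    rw [e]
    push_cast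
    ring
  have hR : ∀ n : ℤ, Complex.exp (-Real.pi / A * ((n : ℂ) + Complex.I * (Complex.I * x)) ^ 2)
      = ((Real.exp (-Real.pi / A * ((n : ℝ) - x) ^ 2) : ℝ) : ℂ) := by
    intro n
    rw [Complex.ofReal_exp]
    congr 1
    push_cast
    have : (n : ℂ) + Complex.I * (Complex.I * x) = (n : ℂ) - x := by
      rw [← mul_assoc, Complex.I_mul_I]
      ring
    rw [this]
  simp only [hL, hR] at h
  have hsum1 : Summable fun n : ℤ => Real.exp (-Real.pi / A * ((n : ℝ) - x) ^ 2) := by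
    have h1 := summable_pow_mul_jacobiTheta₂_term_bound (|x| / A) (T := 1 / A) (by positivity) 0
    refine Summable.of_nonneg_of_le (fun n => (Real.exp_pos _).le) (fun n => ?_) h1
    rw [pow_zero, one_mul]
    refine Real.exp_le_exp.2 ?_
    have e1 : -Real.pi / A * ((n : ℝ) - x) ^ 2
        = -Real.pi * (1 / A * (n : ℝ) ^ 2 - 2 * ((n * x) / A)) - Real.pi / A * x ^ 2 := by
      field_simp
      ring
    have e2 : (n : ℝ) * x ≤ |x| * |(n : ℝ)| := by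
      rw [mul_comm, ← abs_mul]
      exact le_abs_self _
    have e3 : 0 ≤ Real.pi / A * x ^ 2 := by positivity
    have e4 : (n * x) / A ≤ |x| / A * |(n : ℝ)| := by
      rw [div_mul_eq_mul_div]
      gcongr
    rw [e1]
    have e5 : Real.pi * ((n * x) / A) ≤ Real.pi * (|x| / A * |(n : ℝ)|) :=
      mul_le_mul_of_nonneg_left e4 hpi.le
    push_cast
    nlinarith
  have hpos : 0 < ∑' n : ℤ, Real.exp (-Real.pi / A * ((n : ℝ) - x) ^ 2) :=
    hsum1.tsum_pos (fun n => (Real.exp_pos _).le) 0 (Real.exp_pos _)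
  have hsq : (1 / (A : ℂ) ^ (1 / 2 : ℂ)) = ((1 / A ^ (1 / 2 : ℝ) : ℝ) : ℂ) := by
    rw [Complex.ofReal_div, Complex.ofReal_cpow hA0.le]
    simp
  rw [hsq, ← Complex.ofReal_tsum, ← Complex.ofReal_mul] at h
  have hre := congrArg Complex.re h
  rw [Complex.ofReal_re] at hre
  have hsumc : Summable fun n : ℤ => Complex.exp (((-(2 * Real.pi ^ 2 * (n : ℝ) ^ 2) / (k * p.1) :
      ℝ) : ℂ) + ((2 * Real.pi * n * x : ℝ) : ℂ) * Complex.I) := by
    refine Summable.of_norm_bounded (HTEN_B_summable (c := 2 * Real.pi ^ 2 / (k * p.1))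
      (by positivity) 0) fun n => ?_
    rw [HTEN_no]
    unfold HTEN_B
    rw [pow_zero, one_mul]
    refine Real.exp_le_exp.2 (le_of_eq ?_)
    ring
  rw [Complex.re_tsum hsumc] at hre
  have hthd : thd k p = ∑' n : ℤ, (Complex.exp (((-(2 * Real.pi ^ 2 * (n : ℝ) ^ 2) / (k * p.1) :
      ℝ) : ℂ) + ((2 * Real.pi * n * x : ℝ) : ℂ) * Complex.I)).re := by
    unfold thd
    refine tsum_congr fun n => ?_
    rw [HTEN_re, hx]
  rw [hthd, hre]
  positivity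

end RicP
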